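import Pool.Agent.Q67.KT.Tri
set_option autoImplicit false
set_option linter.unusedSectionVars false

/-!
# Families with small branching numbers of the positions
-/

open MeasureTheory Set Metric
open scoped ENNReal NNReal Classical

namespace Q67.KT
open Pool.Agent.TH705.RR (E vb vb_pos Rod vol_rod)

/-- The position cells of the members with the same labels up to `j` and the same position cells
before `j`. -/
def Br {ι G : Type} {m : ℕ} (g : ι → G) (lab pc : ι → Fin m → ℤ) (i : ι) (j : Fin m) : Set ℤ :=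
  {x | ∃ i', g i' = g i ∧ (∀ l ≤ j, lab i' l = lab i l) ∧ (∀ l < j, pc i' l = pc i l) ∧ pc i' j = x}

theorem Br_finite {ι G : Type} [Fintype ι] {m : ℕ} (g : ι → G) (lab pc : ι → Fin m → ℤ) (i : ι)
    (j : Fin m) : (Br g lab pc i j).Finite := by
  apply (Set.finite_range fun i' => pc i' j).subset
  rintro x ⟨i', _, _, _, hx⟩
  exact ⟨i', hx⟩

theorem refine_colour {ι G : Type} [Fintype ι] {m : ℕ} (g : ι → G) (lab pc : ι → Fin m → ℤ)
    (b : Fin m → ℕ) (hb : ∀ i j, (Br g lab pc i j).ncard ≤ b j) :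
    ∃ χ' : ι → Fin (∏ j, b j), ∀ i i', g i = g i' → χ' i = χ' i' →
      ∀ j, (∀ l ≤ j, lab i l = lab i' l) → pc i j = pc i' j := by
  set F : ι → Fin m → Finset ℤ := fun i j => (Br_finite g lab pc i j).toFinset with hF
  have hFc : ∀ i j, (F i j).card ≤ b j := by
    intro i j
    refine le_trans (le_of_eq ?_) (hb i j)
    rw [Set.ncard_eq_toFinset_card _ (Br_finite g lab pc i j)]
  have hmem : ∀ i j, pc i j ∈ F i j := by
    intro i j
    rw [hF]
    simp only [Set.Finite.mem_toFinset]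
    exact ⟨i, rfl, fun _ _ => rfl, fun _ _ => rfl, rfl⟩
  set rk : ι → Fin m → ℕ := fun i j => ((F i j).filter (fun x => x < pc i j)).card with hrk
  have hlt : ∀ i j, rk i j < b j := by
    intro i j
    refine lt_of_lt_of_le ?_ (hFc i j)
    apply Finset.card_lt_card
    rw [Finset.ssubset_iff_of_subset (Finset.filter_subset _ _)]
    exact ⟨pc i j, hmem i j, fun h => lt_irrefl _ (Finset.mem_filter.1 h).2⟩
  set c : ι → (∀ j, Fin (b j)) := fun i j => ⟨rk i j, hlt i j⟩ with hc
  have hcard : Fintype.card (∀ j, Fin (b j)) = ∏ j, b j := by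
    simp [Fintype.card_pi]
  refine ⟨fun i => (Fintype.equivFinOfCardEq hcard) (c i), fun i i' hχ h => ?_⟩
  have hcc : c i = c i' := (Fintype.equivFinOfCardEq hcard).injective h
  have hr : ∀ j, rk i j = rk i' j := by
    intro j
    exact congrArg Fin.val (congrFun hcc j)
  have key : ∀ t : ℕ, ∀ j : Fin m, (j : ℕ) = t → (∀ l ≤ j, lab i l = lab i' l) → pc i j = pc i' j := by
    intro t
    induction t using Nat.strong_induction_on with
    | _ t ih =>
      intro j hj hl
      have hpc : ∀ l < j, pc i l = pc i' l := by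
        intro l hlj
        refine ih l (by rw [← hj]; exact hlj) l rfl (fun l' hl' => hl l' (hl'.trans hlj.le))
      have hFF : F i j = F i' j := by
        ext x
        rw [hF]
        simp only [Set.Finite.mem_toFinset]
        constructor
        · rintro ⟨k, h1, h2, h3, h4⟩
          exact ⟨k, h1.trans hχ, fun l hlj => (h2 l hlj).trans (hl l hlj),
            fun l hlj => (h3 l hlj).trans (hpc l hlj), h4⟩
        · rintro ⟨k, h1, h2, h3, h4⟩
          exact ⟨k, h1.trans hχ.symm, fun l hlj => (h2 l hlj).trans (hl l hlj).symm,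
            fun l hlj => (h3 l hlj).trans (hpc l hlj).symm, h4⟩
      have hrj := hr j
      simp only [hrk] at hrj
      rw [← hFF] at hrj
      have hmi := hmem i j
      have hmi' := hmem i' j
      rw [← hFF] at hmi'
      by_contra hne
      rcases lt_or_gt_of_ne hne with h1 | h1
      · have : ((F i j).filter (fun x => x < pc i j)).card <
            ((F i j).filter (fun x => x < pc i' j)).card := by
          apply Finset.card_lt_card
          rw [Finset.ssubset_iff_of_subset]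
          · exact ⟨pc i j, Finset.mem_filter.2 ⟨hmi, h1⟩, fun h => lt_irrefl _ (Finset.mem_filter.1 h).2⟩
          · intro x hx
            obtain ⟨hx1, hx2⟩ := Finset.mem_filter.1 hx
            exact Finset.mem_filter.2 ⟨hx1, hx2.trans h1⟩
        omega
      · have : ((F i j).filter (fun x => x < pc i' j)).card <
            ((F i j).filter (fun x => x < pc i j)).card := by
          apply Finset.card_lt_card
          rw [Finset.ssubset_iff_of_subset]
          · exact ⟨pc i' j, Finset.mem_filter.2 ⟨hmi', h1⟩, fun h => lt_irrefl _ (Finset.mem_filter.1 h).2⟩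
          · intro x hx
            obtain ⟨hx1, hx2⟩ := Finset.mem_filter.1 hx
            exact Finset.mem_filter.2 ⟨hx1, hx2.trans h1⟩
        omega
  exact fun j hl => key j j rfl hl

theorem floor_close {x y δ : ℝ} (hδ : 0 < δ) (h : ⌊x / δ⌋ = ⌊y / δ⌋) : |x - y| ≤ 1 * δ := by
  have h1 := (Int.abs_sub_lt_one_of_floor_eq_floor h).le
  have h2 : x - y = (x / δ - y / δ) * δ := by field_simp
  rw [h2, abs_mul, abs_of_pos hδ]
  gcongr

/-- The window of heights of a tube. -/
noncomputable def win {m : ℕ} (u : OrthonormalBasis (Fin (m + 1)) ℝ (E (m + 1))) (a : E (m + 1)) : ℤ :=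
  ⌊(inner ℝ a (u (Fin.last m)) : ℝ)⌋

/-- The inequality for all families, with the branching numbers. -/
theorem branch {m : ℕ} (hm : 1 ≤ m) {q : ℝ} (hq : 1 + 1 / (m : ℝ) < q) {δ c : ℝ} (hδ : 0 < δ)
    (hδ1 : δ < 1) (hc : 0 < c) (hc1 : c ≤ 1)
    {ι : Type} [Fintype ι] (a e : ι → E (m + 1)) (he : ∀ i, ‖e i‖ = 1)
    (hsep : ∀ i i', i ≠ i' → δ ≤ ‖e i - e i'‖) {L : ℕ} (χ : ι → Fin L)
    (u : Fin L → OrthonormalBasis (Fin (m + 1)) ℝ (E (m + 1)))
    (hup : ∀ i, c ≤ (inner ℝ (e i) (u (χ i) (Fin.last m)) : ℝ)) (b : Fin m → ℕ)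
    (hb : ∀ i j, (Br (fun i => (χ i, win (u (χ i)) (a i)))
      (fun i j => ⌊slope (u (χ i)) (e i) j / (1 / (m + 1) * δ)⌋)
      (fun i j => ⌊posn (u (χ i)) (a i) (e i) (win (u (χ i)) (a i)) j / δ⌋) i j).ncard ≤ b j) :
    eLpNorm (msum δ a e) (ENNReal.ofReal q) volume ≤
      ENNReal.ofReal ((Cc (m * (q - 1)) * (2 ^ (m + 1) * vb (m + 1) *
        (10 * ((1 + 3 + 1) / (c ^ 2 * (1 / (m + 1)) / 6))))) ^ (1 / q) *
        ((L * 5 * ∏ j, b j : ℕ) : ℝ) ^ (1 / (q * (m : ℝ))) *
        δ ^ ((m : ℝ) / q) * (Fintype.card ι : ℝ) ^ (1 - 1 / (q * (m : ℝ)))) := by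
  have hm0 : (0 : ℝ) < m := by exact_mod_cast hm
  have h1m : 0 < 1 / (m : ℝ) := by positivity
  have hq1 : 1 < q := by linarith
  obtain ⟨χ₁, hχ₁⟩ := refine_colour _ _ _ b hb
  have hγ : 1 < m * (q - 1) := by
    have h2 : 1 / (m : ℝ) < q - 1 := by linarith
    rwa [div_lt_iff₀ hm0, mul_comm] at h2
  have hCc := Cc_pos hγ
  have hvb := vb_pos (m + 1)
  have hcard : Fintype.card (Fin L × Fin 5 × Fin (∏ j, b j)) = L * 5 * ∏ j, b j := by
    simp [Fintype.card_prod, mul_assoc]
  set w : ι → ℤ := fun i => win (u (χ i)) (a i) with hw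
  set res : ℤ → Fin 5 := fun z => ⟨(z % 5).toNat, by omega⟩ with hres
  set χ' : ι → Fin (L * 5 * ∏ j, b j) := fun i =>
    (Fintype.equivFinOfCardEq hcard) (χ i, res (w i), χ₁ i) with hχ'
  have hχ'' : ∀ i i', χ' i = χ' i' → χ i = χ i' ∧ w i % 5 = w i' % 5 ∧ χ₁ i = χ₁ i' := by
    intro i i' h
    have h1 := (Fintype.equivFinOfCardEq hcard).injective h
    have h2 : χ i = χ i' := congrArg Prod.fst h1
    have h3 : res (w i) = res (w i') := congrArg (fun x => x.2.1) h1
    have h4 : χ₁ i = χ₁ i' := congrArg (fun x => x.2.2) h1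
    refine ⟨h2, ?_, h4⟩
    have h5 : (w i % 5).toNat = (w i' % 5).toNat := congrArg Fin.val h3
    omega
  refine elp_union hm hδ hq1 (by positivity) a e χ' ?_
  intro l
  have hu0 : ∃ u₀ : OrthonormalBasis (Fin (m + 1)) ℝ (E (m + 1)), ∀ i : {i // χ' i = l},
      u (χ i) = u₀ := by
    rcases isEmpty_or_nonempty {i // χ' i = l} with h | ⟨⟨i₀⟩⟩
    · exact ⟨EuclideanSpace.basisFun _ _, fun i => isEmptyElim i⟩
    · refine ⟨u (χ i₀), fun i => ?_⟩
      rw [(hχ'' i i₀ (i.2.trans i₀.2.symm)).1]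
  obtain ⟨u₀, hu0⟩ := hu0
  refine tri_cell hm hq hδ hδ1 (K := 1) (τ := 1 / (m + 1)) zero_le_one hc hc1 (by positivity) le_rfl
    (fun i : {i // χ' i = l} => a i) (fun i => e i) (fun i => he i)
    (fun i i' hne => hsep i i' (fun h => hne (Subtype.ext h))) u₀
    (fun i => by rw [← hu0 i]; exact hup i) (fun i => w i) ?_ ?_ ?_
  · intro i
    rw [← hu0 i]
    have h1 := Int.floor_le (inner ℝ (a i) (u (χ i) (Fin.last m)) : ℝ)
    have h2 := (Int.lt_floor_add_one (inner ℝ (a i) (u (χ i) (Fin.last m)) : ℝ)).le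
    have h3 : w i = ⌊(inner ℝ (a i) (u (χ i) (Fin.last m)) : ℝ)⌋ := rfl
    rw [← h3] at h1 h2
    rw [abs_le]
    constructor <;> linarith
  · intro i i' hne
    have h1 := (hχ'' i i' (i.2.trans i'.2.symm)).2.1
    have h2 : (5 : ℤ) ∣ w i - w i' := by omega
    have h3 : w i - w i' ≠ 0 := sub_ne_zero.2 hne
    obtain ⟨k, hk⟩ := h2
    rw [hk, abs_mul]
    have hk0 : k ≠ 0 := by
      rintro rfl
      exact h3 (by rw [hk]; ring)
    have := Int.one_le_abs hk0
    have h5 : |(5 : ℤ)| = 5 := rfl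
    rw [h5]
    linarith
  · intro j i i' hwe hag
    obtain ⟨hc1', hc2, hc3⟩ := hχ'' i i' (i.2.trans i'.2.symm)
    have hg : (χ i, win (u (χ i)) (a i)) = (χ i', win (u (χ i')) (a i')) :=
      Prod.ext hc1' hwe
    have h1 := hχ₁ i i' hg hc3 j (by
      intro l' hl'
      have h2 := hag l' (Nat.lt_succ_of_le hl')
      unfold lb at h2
      rw [← hu0 i] at h2
      nth_rewrite 2 [hu0 i] at h2
      rw [← hu0 i'] at h2
      exact h2)
    rw [← hu0 i]
    nth_rewrite 2 [hu0 i]
    rw [← hu0 i']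
    exact floor_close hδ h1

end Q67.KT
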