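import Pool.Agent.Q67.KT.Sum
set_option autoImplicit false
set_option linter.unusedSectionVars false

/-!
# The inequality for families organised in a tree of sets
-/

open Finset MeasureTheory Set
open scoped Classical ENNReal

namespace Q67.KT

variable {ι : Type} [Fintype ι] {m : ℕ} {lab : ι → Fin m → ℤ}

/-- The constant of the tree inequality. -/
noncomputable def Cc (γ : ℝ) : ℝ := γ * 2 ^ (2 * se γ - 1) * (2 * (2 / (2 * se γ - 1) + 4))

theorem Cc_pos {γ : ℝ} (hγ : 1 < γ) : 0 < Cc γ := by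
  unfold Cc
  have h1 := se_gt hγ
  have h2 : 0 < 2 * se γ - 1 := by linarith
  positivity

theorem core (hm : 1 ≤ m) {γ : ℝ} (hγ : 1 < γ) {X : Type*} [MeasurableSpace X] (μ : Measure X)
    (hinj : Function.Injective lab) (T : ι → Set X) (S : Fin m → ι → Set X)
    (hT : ∀ a, MeasurableSet (T a)) (hS : ∀ j a, MeasurableSet (S j a))
    (hTS : ∀ j a, T a ⊆ S j a) (hSc : ∀ (j : Fin m) a b, agr lab (j + 1) a b → S j a = S j b)
    {M : ℝ} (hM : 0 ≤ M)
    (hμ : ∀ (j : Fin m) a b, agr lab j a b →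
      μ (T a ∩ S j b) ≤ ENNReal.ofReal (M / (1 + (dd lab j a b : ℝ)))) :
    ∫⁻ x, (∑ a, (T a).indicator (1 : X → ℝ≥0∞) x) ^ (1 + γ / m) ∂μ ≤
      ENNReal.ofReal (Cc γ * M * (Fintype.card ι : ℝ) ^ (1 + (γ - 1) / m)) := by
  have hm0 : (0 : ℝ) < m := by exact_mod_cast hm
  have hs0 : 0 < se γ := by
    have := se_gt hγ
    linarith
  have hpt : ∀ x, (∑ a, (T a).indicator (1 : X → ℝ≥0∞) x) ^ (1 + γ / m) ≤
      ∑ a, ∑ j : Fin m, ∑ b ∈ cls lab j a, ENNReal.ofReal (coef lab (se γ) γ j a b) *
        (T a ∩ S j b).indicator (1 : X → ℝ≥0∞) x := by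
    intro x
    set P : Finset ι := univ.filter (fun a => x ∈ T a) with hP
    have h1 : ∑ a, (T a).indicator (1 : X → ℝ≥0∞) x = (P.card : ℝ≥0∞) := by
      rw [hP, card_filter]
      push_cast
      refine sum_congr rfl fun a _ => ?_
      by_cases h : x ∈ T a
      · rw [indicator_of_mem h, if_pos h]; rfl
      · rw [indicator_of_notMem h, if_neg h]
    have h2 := pointwise (lab := lab) hm hinj hs0 (se_lt hγ) hγ.le (fun j a => x ∈ S j a)
      (fun j a b hab => by rw [hSc j a b hab]) P (fun a ha l => hTS l a (Finset.mem_filter.1 ha).2)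
    have h3 : ((P.card : ℝ≥0∞)) ^ (1 + γ / m) = ENNReal.ofReal ((P.card : ℝ) ^ (1 + γ / m)) := by
      rw [← ENNReal.ofReal_natCast, ENNReal.ofReal_rpow_of_nonneg (by positivity) (by positivity)]
    rw [h1, h3]
    refine (ENNReal.ofReal_le_ofReal h2).trans ?_
    rw [ENNReal.ofReal_sum_of_nonneg (fun a _ => sum_nonneg fun j _ => sum_nonneg fun b _ =>
      coef_nonneg hγ.le j a b)]
    have h4 : ∀ a ∈ P, ENNReal.ofReal (∑ j : Fin m, ∑ b ∈ cls lab j a with x ∈ S j b,
        coef lab (se γ) γ j a b) ≤ ∑ j : Fin m, ∑ b ∈ cls lab j a,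
          ENNReal.ofReal (coef lab (se γ) γ j a b) * (T a ∩ S j b).indicator (1 : X → ℝ≥0∞) x := by
      intro a ha
      have hxa : x ∈ T a := (Finset.mem_filter.1 ha).2
      rw [ENNReal.ofReal_sum_of_nonneg (fun j _ => sum_nonneg fun b _ => coef_nonneg hγ.le j a b)]
      refine sum_le_sum fun j _ => ?_
      rw [ENNReal.ofReal_sum_of_nonneg (fun b _ => coef_nonneg hγ.le j a b), sum_filter]
      refine sum_le_sum fun b _ => ?_
      by_cases h : x ∈ S j b
      · rw [if_pos h, indicator_of_mem (show x ∈ T a ∩ S j b from ⟨hxa, h⟩)]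
        simp
      · rw [if_neg h]
        exact zero_le
    exact (sum_le_sum h4).trans (sum_le_sum_of_subset (subset_univ P))
  calc ∫⁻ x, (∑ a, (T a).indicator (1 : X → ℝ≥0∞) x) ^ (1 + γ / m) ∂μ
      ≤ ∫⁻ x, ∑ a, ∑ j : Fin m, ∑ b ∈ cls lab j a, ENNReal.ofReal (coef lab (se γ) γ j a b) *
        (T a ∩ S j b).indicator (1 : X → ℝ≥0∞) x ∂μ := lintegral_mono hpt
    _ = ∑ a, ∑ j : Fin m, ∑ b ∈ cls lab j a, ENNReal.ofReal (coef lab (se γ) γ j a b) *
          μ (T a ∩ S j b) := by
        have hmeas : ∀ (a : ι) (j : Fin m) (b : ι), Measurable fun x =>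
            ENNReal.ofReal (coef lab (se γ) γ j a b) * (T a ∩ S j b).indicator (1 : X → ℝ≥0∞) x :=
          fun a j b => (measurable_one.indicator ((hT a).inter (hS j b))).const_mul _
        rw [lintegral_finsetSum _ fun a _ => Finset.measurable_sum _ fun j _ =>
          Finset.measurable_sum _ fun b _ => hmeas a j b]
        refine sum_congr rfl fun a _ => ?_
        rw [lintegral_finsetSum _ fun j _ => Finset.measurable_sum _ fun b _ => hmeas a j b]
        refine sum_congr rfl fun j _ => ?_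
        rw [lintegral_finsetSum _ fun b _ => hmeas a j b]
        refine sum_congr rfl fun b _ => ?_
        rw [lintegral_const_mul _ (measurable_one.indicator ((hT a).inter (hS j b))),
          lintegral_indicator_one ((hT a).inter (hS j b))]
    _ ≤ ∑ a, ∑ j : Fin m, ∑ b ∈ cls lab j a,
          ENNReal.ofReal (M * (coef lab (se γ) γ j a b / (1 + (dd lab j a b : ℝ)))) := by
        refine sum_le_sum fun a _ => sum_le_sum fun j _ => sum_le_sum fun b hb => ?_
        calc ENNReal.ofReal (coef lab (se γ) γ j a b) * μ (T a ∩ S j b)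
            ≤ ENNReal.ofReal (coef lab (se γ) γ j a b) *
                ENNReal.ofReal (M / (1 + (dd lab j a b : ℝ))) := by
              gcongr
              exact hμ j a b (mem_cls.1 hb)
          _ = _ := by
              rw [← ENNReal.ofReal_mul (coef_nonneg hγ.le j a b)]
              congr 1
              ring
    _ = ENNReal.ofReal (M * ∑ a, ∑ j : Fin m, ∑ b ∈ cls lab j a,
          coef lab (se γ) γ j a b / (1 + (dd lab j a b : ℝ))) := by
        have hnn : ∀ a (j : Fin m) b, 0 ≤ M * (coef lab (se γ) γ j a b / (1 + (dd lab j a b : ℝ))) :=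
          fun a j b => mul_nonneg hM (div_nonneg (coef_nonneg hγ.le j a b) (by positivity))
        simp only [mul_sum]
        rw [ENNReal.ofReal_sum_of_nonneg (fun a _ => sum_nonneg fun j _ => sum_nonneg fun b _ => hnn a j b)]
        refine sum_congr rfl fun a _ => ?_
        rw [ENNReal.ofReal_sum_of_nonneg (fun j _ => sum_nonneg fun b _ => hnn a j b)]
        refine sum_congr rfl fun j _ => ?_
        rw [ENNReal.ofReal_sum_of_nonneg (fun b _ => hnn a j b)]
    _ ≤ _ := by
        apply ENNReal.ofReal_le_ofReal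
        have h1 := coef_sum (lab := lab) hm hγ
        calc M * _ ≤ M * (γ * 2 ^ (2 * se γ - 1) * (2 * (2 / (2 * se γ - 1) + 4)) *
            (Fintype.card ι : ℝ) ^ (1 + (γ - 1) / m)) := mul_le_mul_of_nonneg_left h1 hM
          _ = _ := by
              unfold Cc
              ring

end Q67.KT
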