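import Pool.Agent.Q67.KT.Core
import Pool.Agent.TH705.RR.Vol
set_option autoImplicit false

/-!
# Tubes and slabs
-/

open MeasureTheory Set Metric
open scoped ENNReal NNReal

namespace Q67.KT
open Pool.Agent.TH705.RR (E vb vb_pos Rod vol_rod)

variable {n : ℕ}

/-- The `δ`-tube with centre `a` and direction `e`. -/
def tube (δ : ℝ) (a e : E n) : Set (E n) :=
  {y | |inner ℝ (y - a) e| ≤ 1 / 2 ∧ ‖(y - a) - (inner ℝ (y - a) e) • e‖ ≤ δ}

/-- The slab of half-width `w` around the hyperplane `⟨y, ν⟩ = h`. -/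
def slab (w : ℝ) (ν : E n) (h : ℝ) : Set (E n) := {y | |inner ℝ y ν - h| ≤ w}

theorem tube_closed (δ : ℝ) (a e : E n) : IsClosed (tube δ a e) := by
  have h1 : Continuous fun y : E n => |inner ℝ (y - a) e| := by fun_prop
  have h2 : Continuous fun y : E n => ‖(y - a) - (inner ℝ (y - a) e) • e‖ := by fun_prop
  exact (isClosed_le h1 continuous_const).inter (isClosed_le h2 continuous_const)

theorem slab_closed (w : ℝ) (ν : E n) (h : ℝ) : IsClosed (slab w ν h) := by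
  have h1 : Continuous fun y : E n => |inner ℝ y ν - h| := by fun_prop
  exact isClosed_le h1 continuous_const

theorem vol_tube (hn : 1 ≤ n) {a e : E n} (he : ‖e‖ = 1) {δ : ℝ} (hδ : 0 < δ) (hδ1 : δ < 1) :
    volume (tube δ a e) ≤ ENNReal.ofReal (2 ^ n * vb n * 4 * δ ^ (n - 1)) := by
  have hsub : tube δ a e ⊆ Rod a e (1 / 2) δ := fun y hy => ⟨_, hy.1, hy.2⟩
  refine (measure_mono hsub).trans ((vol_rod hn a he (by norm_num) hδ).trans
    (ENNReal.ofReal_le_ofReal ?_))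
  have := vb_pos n
  gcongr
  linarith

theorem vol_slab (hn : 1 ≤ n) {a e ν : E n} (he : ‖e‖ = 1) (hν : ‖ν‖ = 1) {δ K κ D h : ℝ} (hδ : 0 < δ)
    (hK : 0 ≤ K) (hκ : 0 < κ) (hD : 0 < D) (htr : κ * δ * D ≤ |inner ℝ e ν|) :
    volume (tube δ a e ∩ slab (K * δ) ν h) ≤
      ENNReal.ofReal (2 ^ n * vb n * (5 * ((K + 1) / (κ * D))) * δ ^ (n - 1)) := by
  have hvb := vb_pos n
  set L := (K + 1) / (κ * D) with hL
  have hκD : 0 < κ * D := by positivity
  have hL0 : 0 < L := by positivity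
  have hpos : 0 < |(inner ℝ e ν : ℝ)| := lt_of_lt_of_le (by positivity) htr
  have hne : (inner ℝ e ν : ℝ) ≠ 0 := abs_pos.1 hpos
  have hle1 : |(inner ℝ e ν : ℝ)| ≤ 1 := by
    have := abs_real_inner_le_norm e ν
    rwa [he, hν, one_mul] at this
  have hδL : δ ≤ L := by
    rw [hL, le_div_iff₀ hκD]
    nlinarith
  set s0 := (h - inner ℝ a ν) / inner ℝ e ν with hs0
  have hsub : tube δ a e ∩ slab (K * δ) ν h ⊆ Rod (a + s0 • e) e L δ := by
    rintro y ⟨⟨_, hy2⟩, hy3⟩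
    set t := (inner ℝ (y - a) e : ℝ) with ht
    set w := (y - a) - t • e with hw
    refine ⟨t - s0, ?_, ?_⟩
    · have h1 : y = a + t • e + w := by
        rw [hw]; abel
      have h2 : (inner ℝ y ν : ℝ) = inner ℝ a ν + t * inner ℝ e ν + inner ℝ w ν := by
        rw [h1, inner_add_left, inner_add_left, inner_smul_left]
        simp
      have h3 : |(inner ℝ w ν : ℝ)| ≤ δ := by
        have := abs_real_inner_le_norm w ν
        rw [hν, mul_one] at this
        exact this.trans hy2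
      have h4 : |(t - s0) * inner ℝ e ν| ≤ K * δ + δ := by
        have h5 : (t - s0) * inner ℝ e ν = (inner ℝ y ν - h) - inner ℝ w ν := by
          rw [h2, hs0]
          field_simp
          ring
        rw [h5]
        exact (abs_sub _ _).trans (add_le_add hy3 h3)
      rw [abs_mul] at h4
      rw [hL, le_div_iff₀ hκD]
      have h6 : |t - s0| * (κ * δ * D) ≤ K * δ + δ :=
        (mul_le_mul_of_nonneg_left htr (abs_nonneg _)).trans h4
      have h7 : (|t - s0| * (κ * D)) * δ ≤ (K + 1) * δ := by nlinarith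
      exact le_of_mul_le_mul_right h7 hδ
    · have h1 : y - (a + s0 • e) - (t - s0) • e = w := by
        rw [hw, sub_smul]
        abel
      rw [h1]
      exact hy2
  refine (measure_mono hsub).trans ((vol_rod hn _ he hL0.le hδ).trans (ENNReal.ofReal_le_ofReal ?_))
  gcongr
  linarith

theorem pair_bound (hn : 1 ≤ n) {a e ν : E n} (he : ‖e‖ = 1) (hν : ‖ν‖ = 1) {δ K κ h : ℝ} {D : ℕ}
    (hδ : 0 < δ) (hδ1 : δ < 1) (hK : 0 ≤ K) (hκ : 0 < κ) (hκ1 : κ ≤ 1)
    (htr : κ * δ * D ≤ |inner ℝ e ν|) :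
    volume (tube δ a e ∩ slab (K * δ) ν h) ≤
      ENNReal.ofReal (2 ^ n * vb n * (10 * ((K + 1) / κ)) * δ ^ (n - 1) / (1 + (D : ℝ))) := by
  have hvb := vb_pos n
  have h1 : 1 ≤ (K + 1) / κ := by
    rw [le_div_iff₀ hκ]
    linarith
  rcases Nat.eq_zero_or_pos D with h0 | hpos
  · subst h0
    refine (measure_mono inter_subset_left).trans ((vol_tube hn he hδ hδ1).trans
      (ENNReal.ofReal_le_ofReal ?_))
    rw [Nat.cast_zero, add_zero, div_one]
    gcongr
    linarith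
  · have hD : (1 : ℝ) ≤ D := by exact_mod_cast hpos
    refine (vol_slab hn he hν hδ hK hκ (by linarith) htr).trans (ENNReal.ofReal_le_ofReal ?_)
    have h2 : 5 * ((K + 1) / (κ * D)) ≤ 10 * ((K + 1) / κ) / (1 + D) := by
      rw [div_mul_eq_div_div, ← mul_div_assoc, div_le_div_iff₀ (by linarith) (by linarith)]
      nlinarith
    calc 2 ^ n * vb n * (5 * ((K + 1) / (κ * D))) * δ ^ (n - 1)
        ≤ 2 ^ n * vb n * (10 * ((K + 1) / κ) / (1 + D)) * δ ^ (n - 1) := by gcongr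
      _ = _ := by ring

/-- The inequality for tubes organised in a tree of slabs. -/
theorem tree_tubes {m : ℕ} (hm : 1 ≤ m) {γ : ℝ} (hγ : 1 < γ) {δ K κ : ℝ} (hδ : 0 < δ) (hδ1 : δ < 1)
    (hK : 0 ≤ K) (hκ : 0 < κ) (hκ1 : κ ≤ 1) {ι : Type} [Fintype ι] (a e : ι → E (m + 1))
    (he : ∀ i, ‖e i‖ = 1) {lab : ι → Fin m → ℤ} (hinj : Function.Injective lab)
    (ν : Fin m → ι → E (m + 1)) (h : Fin m → ι → ℝ) (hν : ∀ j i, ‖ν j i‖ = 1)
    (hc : ∀ (j : Fin m) i i', agr lab (j + 1) i i' → ν j i = ν j i' ∧ h j i = h j i')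
    (hsub : ∀ j i, tube δ (a i) (e i) ⊆ slab (K * δ) (ν j i) (h j i))
    (htr : ∀ (j : Fin m) i i', agr lab j i i' → κ * δ * dd lab j i i' ≤ |inner ℝ (e i) (ν j i')|) :
    ∫⁻ x, (∑ i, (tube δ (a i) (e i)).indicator (1 : E (m + 1) → ℝ≥0∞) x) ^ (1 + γ / m) ≤
      ENNReal.ofReal (Cc γ * (2 ^ (m + 1) * vb (m + 1) * (10 * ((K + 1) / κ)) * δ ^ m) *
        (Fintype.card ι : ℝ) ^ (1 + (γ - 1) / m)) := by
  have hvb := vb_pos (m + 1)
  refine core hm hγ volume hinj (fun i => tube δ (a i) (e i)) (fun j i => slab (K * δ) (ν j i) (h j i))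
    (fun i => (tube_closed _ _ _).measurableSet) (fun j i => (slab_closed _ _ _).measurableSet)
    hsub (fun j i i' hii => by rw [(hc j i i' hii).1, (hc j i i' hii).2]) (by positivity) ?_
  intro j i i' hii
  exact pair_bound (by omega) (he i) (hν j i') hδ hδ1 hK hκ hκ1 (htr j i i' hii)

end Q67.KT
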