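import Mathlib
set_option autoImplicit false

/-!
# A discrete Hardy-Littlewood-Sobolev inequality and an ordering lemma
-/

open Finset

namespace Q67.KT

/-- Convexity of the power `γ ≥ 1`. -/
theorem pow_tangent {γ X u : ℝ} (hγ : 1 ≤ γ) (hX : 0 ≤ X) (hu : 0 ≤ u) :
    (u + X) ^ γ ≤ X ^ γ + γ * (u * (u + X) ^ (γ - 1)) := by
  rcases eq_or_lt_of_le (add_nonneg hu hX) with h0 | hpos
  · have hu0 : u = 0 := by linarith
    have hX0 : X = 0 := by linarith
    subst hu0; subst hX0
    simp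
  · set y := u + X with hy
    have hb := one_add_mul_self_le_rpow_one_add (s := -(u / y)) (p := γ) (by
      have : u / y ≤ 1 := (div_le_one hpos).2 (by linarith)
      linarith) hγ
    have h1 : 1 + -(u / y) = X / y := by
      field_simp
      linarith
    rw [h1, Real.div_rpow hX hpos.le] at hb
    have hyg : 0 < y ^ γ := Real.rpow_pos_of_pos hpos _
    have h2 : (1 + γ * -(u / y)) * y ^ γ ≤ X ^ γ := by
      have := mul_le_mul_of_nonneg_right hb hyg.le
      rwa [div_mul_cancel₀ _ hyg.ne'] at this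
    have h3 : y ^ γ = y ^ (γ - 1) * y := by
      rw [Real.rpow_sub_one hpos.ne']
      field_simp
    have h4 : u / y * y ^ γ = u * y ^ (γ - 1) := by
      rw [h3]
      field_simp
    nlinarith [h2, h4]

/-- The ordering lemma: a power of a sum is controlled by the partial sums in the order of `d`. -/
theorem ord_pow {α : Type*} [DecidableEq α] {γ : ℝ} (hγ : 1 ≤ γ) (P : Finset α) (u : α → ℝ)
    (hu : ∀ a, 0 ≤ u a) (d : α → ℕ) :
    (∑ a ∈ P, u a) ^ γ ≤
      γ * ∑ a ∈ P, u a * (∑ b ∈ P with d b ≤ d a, u b) ^ (γ - 1) := by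
  induction P using Finset.induction_on_max_value d with
  | empty => simp [Real.zero_rpow (by linarith : γ ≠ 0)]
  | insert a s ha hmax ih =>
    have hX : 0 ≤ ∑ b ∈ s, u b := sum_nonneg fun b _ => hu b
    rw [sum_insert ha, sum_insert ha]
    have hfil : (insert a s).filter (fun b => d b ≤ d a) = insert a s := by
      apply filter_true_of_mem
      intro b hb
      rcases mem_insert.1 hb with rfl | hb
      · exact le_rfl
      · exact hmax b hb
    rw [hfil, sum_insert ha]
    have h1 : ∑ b ∈ s, u b * (∑ c ∈ s with d c ≤ d b, u c) ^ (γ - 1) ≤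
        ∑ b ∈ s, u b * (∑ c ∈ insert a s with d c ≤ d b, u c) ^ (γ - 1) := by
      apply sum_le_sum
      intro b _
      apply mul_le_mul_of_nonneg_left _ (hu b)
      apply Real.rpow_le_rpow (sum_nonneg fun c _ => hu c) _ (by linarith)
      apply sum_le_sum_of_subset_of_nonneg
      · exact filter_subset_filter _ (subset_insert a s)
      · intro c _ _
        exact hu c
    have h2 := pow_tangent hγ hX (hu a)
    have hγ0 : 0 < γ := by linarith
    nlinarith [mul_le_mul_of_nonneg_left h1 hγ0.le]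

/-- A sum over integers of a function of the distance to `y`. -/
theorem sum_dist (S : Finset ℤ) (y : ℤ) (f : ℕ → ℝ) (hf : ∀ d, 0 ≤ f d) (A : Finset ℕ)
    (hA : ∀ x ∈ S, (x - y).natAbs ∈ A) :
    ∑ x ∈ S, f (x - y).natAbs ≤ 2 * ∑ d ∈ A, f d := by
  rw [← sum_fiberwise_of_maps_to (g := fun x : ℤ => (x - y).natAbs) hA, mul_sum]
  apply sum_le_sum
  intro d _
  have h1 : ∑ x ∈ S with (x - y).natAbs = d, f (x - y).natAbs =
      ((S.filter fun x => (x - y).natAbs = d).card : ℝ) * f d := by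
    rw [sum_congr rfl (g := fun _ => f d), sum_const, nsmul_eq_mul]
    intro x hx
    rw [(mem_filter.1 hx).2]
  rw [h1]
  apply mul_le_mul_of_nonneg_right _ (hf d)
  have h2 : S.filter (fun x => (x - y).natAbs = d) ⊆ {y + d, y - d} := by
    intro x hx
    have h3 := (mem_filter.1 hx).2
    simp only [mem_insert, mem_singleton]
    omega
  have h4 := card_le_card h2
  have h5 : ({y + (d : ℤ), y - d} : Finset ℤ).card ≤ 2 := card_le_two
  exact_mod_cast h4.trans h5

theorem near_sum {p : ℝ} (hp : 0 < p) (hp1 : p ≤ 1) (M : ℕ) :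
    ∑ d ∈ range M, ((1 : ℝ) + d) ^ (p - 1) ≤ 1 / p * (M : ℝ) ^ p := by
  induction M with
  | zero => simp [Real.zero_rpow hp.ne']
  | succ M ih =>
    rw [sum_range_succ]
    have hM : (0 : ℝ) < 1 + M := by positivity
    have hb := rpow_one_add_le_one_add_mul_self (s := -(1 / (1 + (M : ℝ)))) (p := p) (by
      have : 1 / (1 + (M : ℝ)) ≤ 1 := by
        rw [div_le_one hM]
        have : (0 : ℝ) ≤ M := by positivity
        linarith
      linarith) hp.le hp1
    have h1 : 1 + -(1 / (1 + (M : ℝ))) = M / (1 + M) := by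
      field_simp
      ring
    rw [h1, Real.div_rpow (by positivity) hM.le] at hb
    have hMp : 0 < (1 + (M : ℝ)) ^ p := Real.rpow_pos_of_pos hM _
    have h2 : (M : ℝ) ^ p ≤ (1 + p * -(1 / (1 + (M : ℝ)))) * (1 + M) ^ p := by
      rwa [div_le_iff₀ hMp] at hb
    have h3 : (1 / (1 + (M : ℝ))) * (1 + M) ^ p = (1 + (M : ℝ)) ^ (p - 1) := by
      rw [Real.rpow_sub_one hM.ne']
      field_simp
    have h4 : (M : ℝ) ^ p + p * (1 + (M : ℝ)) ^ (p - 1) ≤ (1 + M) ^ p := by
      nlinarith [h2, h3]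
    have h5 : 1 / p * ((M : ℝ) ^ p + p * (1 + (M : ℝ)) ^ (p - 1)) =
        1 / p * (M : ℝ) ^ p + (1 + (M : ℝ)) ^ (p - 1) := by
      field_simp
    have h6 : ((M + 1 : ℕ) : ℝ) = 1 + M := by push_cast; ring
    rw [h6]
    calc ∑ d ∈ range M, ((1 : ℝ) + d) ^ (p - 1) + (1 + (M : ℝ)) ^ (p - 1)
        ≤ 1 / p * (M : ℝ) ^ p + (1 + (M : ℝ)) ^ (p - 1) := by linarith
      _ = 1 / p * ((M : ℝ) ^ p + p * (1 + (M : ℝ)) ^ (p - 1)) := h5.symm
      _ ≤ 1 / p * (1 + (M : ℝ)) ^ p := by
          apply mul_le_mul_of_nonneg_left h4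
          positivity

theorem far_sum {M K : ℕ} (hM : 1 ≤ M) :
    ∑ d ∈ Ico M K, ((1 : ℝ) + d) ^ (-2 : ℝ) ≤ 1 / M := by
  rcases le_or_gt K M with h | h
  · rw [Ico_eq_empty (by omega)]
    simp
  · have key : ∀ K, M ≤ K → ∑ d ∈ Ico M K, ((1 : ℝ) + d) ^ (-2 : ℝ) ≤ 1 / M - 1 / K := by
      intro K hK
      induction K, hK using Nat.le_induction with
      | base => simp
      | succ K hK ih =>
        rw [sum_Ico_succ_top hK]
        have hK0 : (0 : ℝ) < K := by
          have : 0 < K := by omega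
          exact_mod_cast this
        have h1 : ((1 : ℝ) + K) ^ (-2 : ℝ) ≤ 1 / K - 1 / ((K + 1 : ℕ) : ℝ) := by
          rw [Real.rpow_neg (by positivity)]
          have e1 : ((1 : ℝ) + K) ^ (2 : ℝ) = (1 + K) ^ 2 := by
            rw [← Real.rpow_natCast]; norm_num
          rw [e1]
          push_cast
          have e2 : 1 / (K : ℝ) - 1 / (K + 1) = 1 / (K * (K + 1)) := by
            field_simp
            ring
          rw [e2, inv_eq_one_div]
          apply one_div_le_one_div_of_le (by positivity)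
          nlinarith
        linarith
    have h1 := key K h.le
    have h2 : (0 : ℝ) ≤ 1 / K := by positivity
    linarith

/-- Row bound in the discrete Hardy-Littlewood-Sobolev inequality. -/
theorem row {s : ℝ} (hs : 1 / 2 < s) (hs1 : s < 1) (S : Finset ℤ) (n : ℤ → ℝ)
    (hn : ∀ x ∈ S, 0 < n x) (y : ℤ) {v : ℝ} (hv : 0 < v) (hvX : v ≤ ∑ x ∈ S, n x) :
    ∑ x ∈ S with n x ≤ v, n x ^ s * ((1 : ℝ) + (x - y).natAbs) ^ (-(2 - 2 * s)) ≤
      (2 / (2 * s - 1) + 4) * ((∑ x ∈ S, n x) ^ (2 * s - 1) * v ^ (1 - s)) := by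
  set X := ∑ x ∈ S, n x with hX
  have hX0 : 0 < X := by linarith
  have hXv : 1 ≤ X / v := by rwa [le_div_iff₀ hv, one_mul]
  set M := ⌊X / v⌋₊ with hM
  have hM1 : 1 ≤ M := by
    rw [hM]
    exact (Nat.one_le_floor_iff _).2 hXv
  have hMle : (M : ℝ) ≤ X / v := Nat.floor_le (by positivity)
  have hMge : X / v / 2 ≤ (M : ℝ) := by
    have h1 : X / v < M + 1 := Nat.lt_floor_add_one _
    have h2 : (1 : ℝ) ≤ M := by exact_mod_cast hM1
    linarith
  have hM0 : (0 : ℝ) < M := by exact_mod_cast (by omega : 0 < M)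
  set S' := S.filter (fun x => n x ≤ v) with hS'
  rw [← sum_filter_add_sum_filter_not S' (fun x : ℤ => (x - y).natAbs < M)]
  -- near part
  have hnear : ∑ x ∈ S' with (x - y).natAbs < M, n x ^ s * ((1 : ℝ) + (x - y).natAbs) ^ (-(2 - 2 * s)) ≤
      2 / (2 * s - 1) * (X ^ (2 * s - 1) * v ^ (1 - s)) := by
    calc ∑ x ∈ S' with (x - y).natAbs < M, n x ^ s * ((1 : ℝ) + (x - y).natAbs) ^ (-(2 - 2 * s))
        ≤ ∑ x ∈ S' with (x - y).natAbs < M, v ^ s * ((1 : ℝ) + (x - y).natAbs) ^ ((2 * s - 1) - 1) := by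
          apply sum_le_sum
          intro x hx
          have h1 := (mem_filter.1 hx).1
          have h2 := (mem_filter.1 h1).2
          have h3 := hn x (mem_filter.1 h1).1
          have e1 : -(2 - 2 * s) = (2 * s - 1) - 1 := by ring
          rw [e1]
          apply mul_le_mul_of_nonneg_right _ (by positivity)
          exact Real.rpow_le_rpow h3.le h2 (by linarith)
      _ = v ^ s * ∑ x ∈ S' with (x - y).natAbs < M,
            (fun d : ℕ => ((1 : ℝ) + d) ^ ((2 * s - 1) - 1)) (x - y).natAbs := by rw [mul_sum]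
      _ ≤ v ^ s * (2 * ∑ d ∈ range M, ((1 : ℝ) + d) ^ ((2 * s - 1) - 1)) := by
          apply mul_le_mul_of_nonneg_left _ (by positivity)
          apply sum_dist _ y (fun d : ℕ => ((1 : ℝ) + d) ^ ((2 * s - 1) - 1)) (fun d => by positivity)
          intro x hx
          exact mem_range.2 (mem_filter.1 hx).2
      _ ≤ v ^ s * (2 * (1 / (2 * s - 1) * (M : ℝ) ^ (2 * s - 1))) := by
          gcongr
          exact near_sum (by linarith) (by linarith) M
      _ ≤ v ^ s * (2 * (1 / (2 * s - 1) * (X / v) ^ (2 * s - 1))) := by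
          have h2s : 0 < 2 * s - 1 := by linarith
          gcongr
      _ = 2 / (2 * s - 1) * (X ^ (2 * s - 1) * v ^ (1 - s)) := by
          rw [Real.div_rpow hX0.le hv.le]
          have e1 : v ^ s / v ^ (2 * s - 1) = v ^ (1 - s) := by
            rw [← Real.rpow_sub hv]
            congr 1
            ring
          rw [← e1]
          ring
  -- far part
  have hfar : ∑ x ∈ S' with ¬ (x - y).natAbs < M, n x ^ s * ((1 : ℝ) + (x - y).natAbs) ^ (-(2 - 2 * s)) ≤
      4 * (X ^ (2 * s - 1) * v ^ (1 - s)) := by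
    set F := S'.filter (fun x : ℤ => ¬ (x - y).natAbs < M) with hF
    have hFS : F ⊆ S := (filter_subset _ _).trans (filter_subset _ _)
    have hs0 : 0 < s := by linarith
    have hol := Real.inner_le_Lp_mul_Lq_of_nonneg F (p := 1 / s) (q := 1 / (1 - s))
      (f := fun x => n x ^ s) (g := fun x => ((1 : ℝ) + (x - y).natAbs) ^ (-(2 - 2 * s)))
      (by
        rw [Real.holderConjugate_iff]
        constructor
        · rw [lt_div_iff₀ hs0]; linarith
        · simp)
      (fun x hx => by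
        have := hn x (hFS hx)
        positivity) (fun x hx => by positivity)
    refine hol.trans ?_
    have e1 : ∑ x ∈ F, (n x ^ s) ^ (1 / s) = ∑ x ∈ F, n x := by
      apply sum_congr rfl
      intro x hx
      rw [← Real.rpow_mul (hn x (hFS hx)).le]
      rw [mul_one_div_cancel hs0.ne', Real.rpow_one]
    have e2 : ∑ x ∈ F, (((1 : ℝ) + (x - y).natAbs) ^ (-(2 - 2 * s))) ^ (1 / (1 - s)) =
        ∑ x ∈ F, (fun d : ℕ => ((1 : ℝ) + d) ^ (-2 : ℝ)) (x - y).natAbs := by
      apply sum_congr rfl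
      intro x hx
      rw [← Real.rpow_mul (by positivity)]
      congr 1
      have : 1 - s ≠ 0 := by linarith
      field_simp
    rw [e1, e2, one_div_one_div, one_div_one_div]
    have h1 : ∑ x ∈ F, n x ≤ X := sum_le_sum_of_subset_of_nonneg hFS fun x hx _ => (hn x hx).le
    have h2 : ∑ x ∈ F, (fun d : ℕ => ((1 : ℝ) + d) ^ (-2 : ℝ)) (x - y).natAbs ≤ 2 * (1 / M) := by
      set K := (F.image fun x => (x - y).natAbs).sup id + 1 with hK
      refine (sum_dist F y (fun d : ℕ => ((1 : ℝ) + d) ^ (-2 : ℝ)) (fun d => by positivity)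
        (Ico M K) ?_).trans ?_
      · intro x hx
        rw [mem_Ico]
        constructor
        · have := (mem_filter.1 hx).2
          omega
        · have : (x - y).natAbs ≤ (F.image fun x => (x - y).natAbs).sup id :=
            le_sup (f := id) (mem_image_of_mem _ hx)
          omega
      · have := far_sum (M := M) (K := K) hM1
        linarith
    have h1' : 0 ≤ ∑ x ∈ F, n x := sum_nonneg fun x hx => (hn x (hFS hx)).le
    have h2' : 0 ≤ ∑ x ∈ F, (fun d : ℕ => ((1 : ℝ) + d) ^ (-2 : ℝ)) (x - y).natAbs :=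
      sum_nonneg fun x hx => by positivity
    have h3 : 2 * (1 / (M : ℝ)) ≤ 4 * (v / X) := by
      have h4 : 1 / (M : ℝ) ≤ 1 / (X / v / 2) := one_div_le_one_div_of_le (by positivity) hMge
      have h5 : 1 / (X / v / 2) = 2 * (v / X) := by field_simp
      linarith
    calc (∑ x ∈ F, n x) ^ s * (∑ x ∈ F, (fun d : ℕ => ((1 : ℝ) + d) ^ (-2 : ℝ)) (x - y).natAbs) ^ (1 - s)
        ≤ X ^ s * (4 * (v / X)) ^ (1 - s) := by
          apply mul_le_mul
          · exact Real.rpow_le_rpow h1' h1 (by linarith)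
          · exact Real.rpow_le_rpow h2' (h2.trans h3) (by linarith)
          · positivity
          · positivity
      _ ≤ X ^ s * (4 * (v / X) ^ (1 - s)) := by
          have h5 : (4 * (v / X)) ^ (1 - s) = 4 ^ (1 - s) * (v / X) ^ (1 - s) :=
            Real.mul_rpow (by norm_num) (by positivity)
          have h6 : (4 : ℝ) ^ (1 - s) ≤ 4 ^ (1 : ℝ) :=
            Real.rpow_le_rpow_of_exponent_le (by norm_num) (by linarith)
          rw [Real.rpow_one] at h6
          rw [h5]
          gcongr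
      _ = 4 * (X ^ (2 * s - 1) * v ^ (1 - s)) := by
          rw [Real.div_rpow hv.le hX0.le]
          have e1 : X ^ s / X ^ (1 - s) = X ^ (2 * s - 1) := by
            rw [← Real.rpow_sub hX0]
            congr 1
            ring
          rw [← e1]
          ring
  calc _ ≤ 2 / (2 * s - 1) * (X ^ (2 * s - 1) * v ^ (1 - s)) + 4 * (X ^ (2 * s - 1) * v ^ (1 - s)) :=
        add_le_add hnear hfar
    _ = _ := by ring

/-- The discrete Hardy-Littlewood-Sobolev inequality. -/
theorem hls {s : ℝ} (hs : 1 / 2 < s) (hs1 : s < 1) (S : Finset ℤ) (n : ℤ → ℝ)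
    (hn : ∀ x ∈ S, 0 < n x) :
    ∑ y ∈ S, ∑ x ∈ S, n y ^ s * (n x ^ s * ((1 : ℝ) + (x - y).natAbs) ^ (-(2 - 2 * s))) ≤
      2 * (2 / (2 * s - 1) + 4) * (∑ x ∈ S, n x) ^ (2 * s) := by
  set X := ∑ x ∈ S, n x with hX
  set F : ℤ → ℤ → ℝ := fun y x => n y ^ s * (n x ^ s * ((1 : ℝ) + (x - y).natAbs) ^ (-(2 - 2 * s)))
    with hF
  have hF0 : ∀ y ∈ S, ∀ x ∈ S, 0 ≤ F y x := by
    intro y hy x hx
    have h1 := hn y hy
    have h2 := hn x hx
    simp only [hF]
    positivity
  have hsym : ∀ y x, F y x = F x y := by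
    intro y x
    simp only [hF]
    have : (x - y).natAbs = (y - x).natAbs := by omega
    rw [this]
    ring
  have h1 : ∀ y ∈ S, ∑ x ∈ S, F y x ≤
      ∑ x ∈ S with n x ≤ n y, F y x + ∑ x ∈ S with n y ≤ n x, F y x := by
    intro y hy
    rw [← sum_filter_add_sum_filter_not S (fun x => n x ≤ n y)]
    refine add_le_add le_rfl (sum_le_sum_of_subset_of_nonneg ?_ ?_)
    · intro x hx
      obtain ⟨hx1, hx2⟩ := mem_filter.1 hx
      exact mem_filter.2 ⟨hx1, (not_le.1 hx2).le⟩
    · intro x hx _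
      exact hF0 y hy x (mem_filter.1 hx).1
  have h2 : ∑ y ∈ S, ∑ x ∈ S with n y ≤ n x, F y x = ∑ y ∈ S, ∑ x ∈ S with n x ≤ n y, F y x := by
    simp only [sum_filter]
    rw [sum_comm]
    refine sum_congr rfl fun x _ => sum_congr rfl fun y _ => ?_
    rw [hsym]
  have h3 : ∑ y ∈ S, ∑ x ∈ S, F y x ≤ 2 * ∑ y ∈ S, ∑ x ∈ S with n x ≤ n y, F y x := by
    calc ∑ y ∈ S, ∑ x ∈ S, F y x
        ≤ ∑ y ∈ S, (∑ x ∈ S with n x ≤ n y, F y x + ∑ x ∈ S with n y ≤ n x, F y x) := sum_le_sum h1
      _ = 2 * ∑ y ∈ S, ∑ x ∈ S with n x ≤ n y, F y x := by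
          rw [sum_add_distrib, h2]
          ring
  refine h3.trans ?_
  have h4 : ∀ y ∈ S, ∑ x ∈ S with n x ≤ n y, F y x ≤
      (2 / (2 * s - 1) + 4) * X ^ (2 * s - 1) * n y := by
    intro y hy
    have hy0 := hn y hy
    have hyX : n y ≤ X := single_le_sum (f := n) (fun x hx => (hn x hx).le) hy
    have h5 := row hs hs1 S n hn y hy0 hyX
    calc ∑ x ∈ S with n x ≤ n y, F y x
        = n y ^ s * ∑ x ∈ S with n x ≤ n y, n x ^ s * ((1 : ℝ) + (x - y).natAbs) ^ (-(2 - 2 * s)) := by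
          rw [mul_sum]
      _ ≤ n y ^ s * ((2 / (2 * s - 1) + 4) * (X ^ (2 * s - 1) * n y ^ (1 - s))) := by
          gcongr
      _ = (2 / (2 * s - 1) + 4) * X ^ (2 * s - 1) * (n y ^ s * n y ^ (1 - s)) := by ring
      _ = (2 / (2 * s - 1) + 4) * X ^ (2 * s - 1) * n y := by
          rw [← Real.rpow_add hy0]
          congr 1
          rw [add_sub_cancel, Real.rpow_one]
  have h5 : ∑ y ∈ S, ∑ x ∈ S with n x ≤ n y, F y x ≤
      (2 / (2 * s - 1) + 4) * X ^ (2 * s - 1) * X := by
    calc _ ≤ ∑ y ∈ S, (2 / (2 * s - 1) + 4) * X ^ (2 * s - 1) * n y := sum_le_sum h4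
      _ = _ := by rw [← mul_sum]
  have hX0 : 0 ≤ X := sum_nonneg fun x hx => (hn x hx).le
  rcases eq_or_lt_of_le hX0 with h0 | hpos
  · have hSe : S = ∅ := by
      by_contra hne
      obtain ⟨x, hx⟩ := nonempty_iff_ne_empty.2 hne
      have : 0 < X := sum_pos hn ⟨x, hx⟩
      linarith
    subst hSe
    simp [hX, Real.zero_rpow (by linarith : 2 * s ≠ 0)]
  · have e1 : X ^ (2 * s - 1) * X = X ^ (2 * s) := by
      rw [Real.rpow_sub_one hpos.ne']
      field_simp
    calc 2 * ∑ y ∈ S, ∑ x ∈ S with n x ≤ n y, F y x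
        ≤ 2 * ((2 / (2 * s - 1) + 4) * X ^ (2 * s - 1) * X) := by linarith
      _ = 2 * (2 / (2 * s - 1) + 4) * (X ^ (2 * s - 1) * X) := by ring
      _ = _ := by rw [e1]

end Q67.KT
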