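import Pool.Agent.Q67.KT.Geo
set_option autoImplicit false

/-!
# The inequality for the norms, and finite unions
-/

open MeasureTheory Set Metric
open scoped ENNReal NNReal Classical

namespace Q67.KT
open Pool.Agent.TH705.RR (E vb vb_pos Rod vol_rod)

/-- The sum of the indicators of the tubes. -/
noncomputable def msum {n : ℕ} {ι : Type} [Fintype ι] (δ : ℝ) (a e : ι → E n) (x : E n) : ℝ :=
  ∑ i, (tube δ (a i) (e i)).indicator (fun _ => (1 : ℝ)) x

theorem msum_meas {n : ℕ} {ι : Type} [Fintype ι] (δ : ℝ) (a e : ι → E n) :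
    Measurable (msum δ a e) := by
  unfold msum
  exact Finset.measurable_sum _ fun i _ =>
    measurable_const.indicator (tube_closed _ _ _).measurableSet

theorem elp_one {n m : ℕ} (hm : 1 ≤ m) {ι : Type} [Fintype ι] {δ q A : ℝ} (hδ : 0 < δ) (hq : 0 < q)
    (hA : 0 ≤ A) (a e : ι → E n)
    (h : ∫⁻ x, (∑ i, (tube δ (a i) (e i)).indicator (1 : E n → ℝ≥0∞) x) ^ q ≤
      ENNReal.ofReal (A * δ ^ m * (Fintype.card ι : ℝ) ^ (q - 1 / (m : ℝ)))) :
    eLpNorm (msum δ a e) (ENNReal.ofReal q) volume ≤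
      ENNReal.ofReal (A ^ (1 / q) * δ ^ ((m : ℝ) / q) *
        (Fintype.card ι : ℝ) ^ (1 - 1 / (q * (m : ℝ)))) := by
  have hm0 : (0 : ℝ) < m := by exact_mod_cast hm
  rw [eLpNorm_eq_lintegral_rpow_enorm_toReal (by
    rw [ne_eq, ENNReal.ofReal_eq_zero, not_le]; exact hq) ENNReal.ofReal_ne_top,
    ENNReal.toReal_ofReal hq.le]
  have e3 : ∀ x, ‖msum δ a e x‖ₑ = ∑ i, (tube δ (a i) (e i)).indicator (1 : E n → ℝ≥0∞) x := by
    intro x
    unfold msum
    rw [Real.enorm_of_nonneg (Finset.sum_nonneg fun i _ =>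
      Set.indicator_nonneg (fun _ _ => zero_le_one) _),
      ENNReal.ofReal_sum_of_nonneg fun i _ => Set.indicator_nonneg (fun _ _ => zero_le_one) _]
    refine Finset.sum_congr rfl fun i _ => ?_
    by_cases hx : x ∈ tube δ (a i) (e i)
    · rw [Set.indicator_of_mem hx, Set.indicator_of_mem hx, ENNReal.ofReal_one]
      rfl
    · rw [Set.indicator_of_notMem hx, Set.indicator_of_notMem hx, ENNReal.ofReal_zero]
  simp only [e3]
  refine (ENNReal.rpow_le_rpow h (by positivity)).trans (le_of_eq ?_)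
  rw [ENNReal.ofReal_rpow_of_nonneg (by positivity) (by positivity)]
  congr 1
  rw [Real.mul_rpow (by positivity) (by positivity), Real.mul_rpow hA (by positivity),
    ← Real.rpow_natCast, ← Real.rpow_mul hδ.le, ← Real.rpow_mul (by positivity)]
  congr 2
  · congr 1
    ring
  · field_simp

/-- Concavity. -/
theorem sum_conc {L : ℕ} {θ : ℝ} (hθ : 0 < θ) (hθ1 : θ < 1) (N : Fin L → ℝ) (hN : ∀ l, 0 ≤ N l) :
    ∑ l, N l ^ θ ≤ (L : ℝ) ^ (1 - θ) * (∑ l, N l) ^ θ := by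
  have h1θ : 0 < 1 - θ := by linarith
  have hol := Real.inner_le_Lp_mul_Lq_of_nonneg (Finset.univ : Finset (Fin L)) (p := 1 / (1 - θ))
      (q := 1 / θ) (f := fun _ => 1) (g := fun l => N l ^ θ)
      (by
        rw [Real.holderConjugate_iff]
        constructor
        · rw [lt_div_iff₀ h1θ]; linarith
        · simp)
      (fun _ _ => zero_le_one) (fun l _ => Real.rpow_nonneg (hN l) _)
  simp only [one_mul, Real.one_rpow, one_div_one_div, Finset.sum_const, Finset.card_univ,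
    Fintype.card_fin, nsmul_eq_mul, mul_one] at hol
  refine hol.trans (le_of_eq ?_)
  congr 2
  refine Finset.sum_congr rfl fun l _ => ?_
  rw [← Real.rpow_mul (hN l), mul_one_div_cancel hθ.ne', Real.rpow_one]

theorem elp_union {n m : ℕ} (hm : 1 ≤ m) {ι : Type} [Fintype ι] {δ q B : ℝ}
    (hδ : 0 < δ) (hq : 1 < q) (hB : 0 ≤ B) (a e : ι → E n) {L : ℕ} (χ : ι → Fin L)
    (h : ∀ l, eLpNorm (msum δ (fun i : {i // χ i = l} => a i) (fun i => e i)) (ENNReal.ofReal q) volume ≤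
      ENNReal.ofReal (B * δ ^ ((m : ℝ) / q) *
        (Fintype.card {i // χ i = l} : ℝ) ^ (1 - 1 / (q * (m : ℝ))))) :
    eLpNorm (msum δ a e) (ENNReal.ofReal q) volume ≤
      ENNReal.ofReal (B * (L : ℝ) ^ (1 / (q * (m : ℝ))) * δ ^ ((m : ℝ) / q) *
        (Fintype.card ι : ℝ) ^ (1 - 1 / (q * (m : ℝ)))) := by
  have hm0 : (1 : ℝ) ≤ m := by exact_mod_cast hm
  have hqm : 1 < q * m := by nlinarith
  have e1 : msum δ a e = ∑ l, msum δ (fun i : {i // χ i = l} => a i) (fun i => e i) := by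
    funext x
    rw [Finset.sum_apply]
    unfold msum
    exact (Fintype.sum_fiberwise χ _).symm
  rw [e1]
  refine (eLpNorm_sum_le (fun l _ => (msum_meas _ _ _).aestronglyMeasurable) (by
    rw [ENNReal.one_le_ofReal]; exact hq.le)).trans ?_
  refine (Finset.sum_le_sum fun l _ => h l).trans ?_
  rw [← ENNReal.ofReal_sum_of_nonneg fun l _ => by positivity]
  apply ENNReal.ofReal_le_ofReal
  rw [← Finset.mul_sum]
  have h2 := sum_conc (L := L) (θ := 1 - 1 / (q * (m : ℝ))) (by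
    have : 1 / (q * (m : ℝ)) < 1 := by rw [div_lt_one (by linarith)]; exact hqm
    linarith) (by
    have : 0 < 1 / (q * (m : ℝ)) := by positivity
    linarith) (fun l => (Fintype.card {i // χ i = l} : ℝ)) (fun l => by positivity)
  have h3 : ∑ l, (Fintype.card {i // χ i = l} : ℝ) = Fintype.card ι := by
    have := Fintype.sum_fiberwise χ (fun _ => (1 : ℝ))
    simpa using this
  rw [h3, sub_sub_cancel] at h2
  calc B * δ ^ ((m : ℝ) / q) * ∑ l, (Fintype.card {i // χ i = l} : ℝ) ^ (1 - 1 / (q * (m : ℝ)))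
      ≤ B * δ ^ ((m : ℝ) / q) * ((L : ℝ) ^ (1 / (q * (m : ℝ))) *
          (Fintype.card ι : ℝ) ^ (1 - 1 / (q * (m : ℝ)))) := by gcongr
    _ = _ := by ring

/-- The tubes of one colour, organised in a tree of slabs. -/
theorem tree_one {m : ℕ} (hm : 1 ≤ m) {q : ℝ} (hq : 1 + 1 / (m : ℝ) < q) {δ K κ : ℝ} (hδ : 0 < δ)
    (hδ1 : δ < 1) (hK : 0 ≤ K) (hκ : 0 < κ) (hκ1 : κ ≤ 1) {ι : Type} [Fintype ι]
    (a e : ι → E (m + 1)) (he : ∀ i, ‖e i‖ = 1) {lab : ι → Fin m → ℤ}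
    (hinj : Function.Injective lab) (ν : Fin m → ι → E (m + 1)) (h : Fin m → ι → ℝ)
    (hν : ∀ j i, ‖ν j i‖ = 1)
    (hc : ∀ (j : Fin m) i i', agr lab (j + 1) i i' → ν j i = ν j i' ∧ h j i = h j i')
    (hsub : ∀ j i, tube δ (a i) (e i) ⊆ slab (K * δ) (ν j i) (h j i))
    (htr : ∀ (j : Fin m) i i', agr lab j i i' → κ * δ * dd lab j i i' ≤ |inner ℝ (e i) (ν j i')|) :
    eLpNorm (msum δ a e) (ENNReal.ofReal q) volume ≤
      ENNReal.ofReal ((Cc (m * (q - 1)) * (2 ^ (m + 1) * vb (m + 1) * (10 * ((K + 1) / κ)))) ^ (1 / q) *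
        δ ^ ((m : ℝ) / q) * (Fintype.card ι : ℝ) ^ (1 - 1 / (q * (m : ℝ)))) := by
  have hm0 : (0 : ℝ) < m := by exact_mod_cast hm
  have hvb := vb_pos (m + 1)
  have h1 : 0 < 1 / (m : ℝ) := by positivity
  have hγ : 1 < m * (q - 1) := by
    have h2 : 1 / (m : ℝ) < q - 1 := by linarith
    rwa [div_lt_iff₀ hm0, mul_comm] at h2
  have hCc := Cc_pos hγ
  refine elp_one hm hδ (by linarith) (by positivity) a e ?_
  have key := tree_tubes hm hγ hδ hδ1 hK hκ hκ1 a e he hinj ν h hν hc hsub htr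
  have e1 : 1 + m * (q - 1) / (m : ℝ) = q := by field_simp; ring
  have e2 : 1 + (m * (q - 1) - 1) / (m : ℝ) = q - 1 / m := by field_simp; ring
  rw [e1, e2] at key
  refine key.trans (le_of_eq ?_)
  congr 1
  ring

end Q67.KT
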