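import Pool.Agent.Q67.KT.Tree
set_option autoImplicit false
set_option linter.unusedSectionVars false

/-!
# The weighted sums over the tree
-/

open Finset
open scoped Classical

namespace Q67.KT

variable {ι : Type} [Fintype ι] {m : ℕ} {lab : ι → Fin m → ℤ}

/-- The distance of the labels at the position `j`. -/
def dd (lab : ι → Fin m → ℤ) (j : Fin m) (a b : ι) : ℕ := (lab b j - lab a j).natAbs

/-- The balancing weights. -/
noncomputable def bal (lab : ι → Fin m → ℤ) (γ : ℝ) (j : Fin m) (a : ι) : ℝ :=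
  ((Fintype.card ι : ℝ) ^ (1 / (m : ℝ)) * (nn lab (j + 1) a / nn lab j a)) ^ (γ - 1)

theorem bal_pos [Nonempty ι] (γ : ℝ) (j : Fin m) (a : ι) : 0 < bal lab γ j a := by
  unfold bal
  have h1 : (0 : ℝ) < Fintype.card ι := by exact_mod_cast Fintype.card_pos
  have h2 := nn_pos (lab := lab) (j + 1) a
  have h3 := nn_pos (lab := lab) j a
  positivity

theorem bal_prod [Nonempty ι] (hm : 1 ≤ m) (hinj : Function.Injective lab) (γ : ℝ) (a : ι) :
    ∏ j, bal lab γ j a = 1 := by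
  have h1 : (0 : ℝ) < Fintype.card ι := by exact_mod_cast Fintype.card_pos
  have hm0 : (m : ℝ) ≠ 0 := by positivity
  unfold bal
  rw [Real.finsetProd_rpow _ _ (fun j _ => by
    have h2 := nn_pos (lab := lab) (j + 1) a
    have h3 := nn_pos (lab := lab) j a
    positivity)]
  rw [prod_mul_distrib, prod_const, card_univ, Fintype.card_fin, ← Real.rpow_natCast,
    ← Real.rpow_mul h1.le, one_div_mul_cancel hm0, Real.rpow_one]
  have h2 : ∏ j : Fin m, nn lab (j + 1) a / nn lab j a = 1 / Fintype.card ι := by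
    have h3 := Fin.prod_univ_eq_prod_range (fun i => nn lab (i + 1) a / nn lab i a) m
    rw [h3]
    have h4 : ∀ M, ∏ i ∈ range M, (nn lab (i + 1) a / nn lab i a) = nn lab M a / nn lab 0 a := by
      intro M
      induction M with
      | zero => simp [div_self (nn_pos (lab := lab) 0 a).ne']
      | succ M ih =>
        rw [prod_range_succ, ih]
        have h5 := nn_pos (lab := lab) M a
        have h6 := nn_pos (lab := lab) 0 a
        field_simp
    rw [h4, nn_top hinj, nn_zero]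
  rw [h2, mul_one_div_cancel h1.ne', Real.one_rpow]

/-- The inequality of the means. -/
theorem mean_le [Nonempty ι] (hm : 1 ≤ m) (hinj : Function.Injective lab) {γ : ℝ}
    (a : ι) (r : Fin m → ℝ) (hr : ∀ j, 0 ≤ r j) :
    (∏ j, r j) ^ (γ / m) ≤ ∑ j, 1 / (m : ℝ) * (bal lab γ j a * r j ^ γ) := by
  have hm0 : (0 : ℝ) < m := by exact_mod_cast hm
  have h1 := Real.geom_mean_le_arith_mean_weighted univ (fun _ : Fin m => 1 / (m : ℝ))
    (fun j => bal lab γ j a * r j ^ γ) (fun _ _ => by positivity) (by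
      rw [sum_const, card_univ, Fintype.card_fin, nsmul_eq_mul]
      field_simp) (fun j _ => mul_nonneg (bal_pos γ j a).le (Real.rpow_nonneg (hr j) _))
  refine le_trans (le_of_eq ?_) h1
  have h2 : ∀ j ∈ (univ : Finset (Fin m)), (bal lab γ j a * r j ^ γ) ^ (1 / (m : ℝ)) =
      bal lab γ j a ^ (1 / (m : ℝ)) * r j ^ (γ / m) := by
    intro j _
    rw [Real.mul_rpow (bal_pos γ j a).le (Real.rpow_nonneg (hr j) _), ← Real.rpow_mul (hr j)]
    congr 2
    ring
  rw [prod_congr rfl h2, prod_mul_distrib, Real.finsetProd_rpow _ _ (fun j _ => (bal_pos γ j a).le),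
    bal_prod hm hinj, Real.one_rpow, one_mul, Real.finsetProd_rpow _ _ (fun j _ => hr j)]

theorem fiber_sub {j : Fin m} {a c₀ c : ι} (h0 : agr lab j a c₀) (h1 : agr lab j a c)
    (h2 : lab c j = lab c₀ j) : c ∈ cls lab (j + 1) c₀ :=
  mem_cls.2 (agr_succ.2 ⟨agr_trans (agr_symm h0) h1, h2.symm⟩)

theorem inv_sum (j : Fin m) (a : ι) (D : ℕ) :
    ∑ c ∈ cls lab j a with dd lab j a c ≤ D, (nn lab (j + 1) c)⁻¹ ≤ 2 * D + 1 := by
  have hmap : ∀ c ∈ (cls lab j a).filter (fun c => dd lab j a c ≤ D),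
      lab c j ∈ Icc (lab a j - D) (lab a j + D) := by
    intro c hc
    have h1 := (mem_filter.1 hc).2
    unfold dd at h1
    rw [mem_Icc]
    omega
  rw [← sum_fiberwise_of_maps_to hmap]
  have h2 : ∀ x ∈ Icc (lab a j - D) (lab a j + D),
      ∑ c ∈ ((cls lab j a).filter (fun c => dd lab j a c ≤ D)).filter (fun c => lab c j = x),
        (nn lab (j + 1) c)⁻¹ ≤ 1 := by
    intro x _
    set F := ((cls lab j a).filter (fun c => dd lab j a c ≤ D)).filter (fun c => lab c j = x) with hF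
    rcases F.eq_empty_or_nonempty with he | ⟨c₀, hc₀⟩
    · rw [he]; simp
    · have hc0 := mem_filter.1 hc₀
      have hc0' := mem_cls.1 (mem_filter.1 hc0.1).1
      have hsub : F ⊆ cls lab (j + 1) c₀ := by
        intro c hc
        have hc1 := mem_filter.1 hc
        exact fiber_sub hc0' (mem_cls.1 (mem_filter.1 hc1.1).1) (hc1.2.trans hc0.2.symm)
      calc ∑ c ∈ F, (nn lab (j + 1) c)⁻¹ ≤ ∑ c ∈ cls lab (j + 1) c₀, (nn lab (j + 1) c)⁻¹ := by
            apply sum_le_sum_of_subset_of_nonneg hsub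
            intro c _ _
            exact (inv_pos.2 (nn_pos _ _)).le
        _ = ∑ c ∈ cls lab (j + 1) c₀, (nn lab (j + 1) c₀)⁻¹ := by
            refine sum_congr rfl fun c hc => ?_
            rw [nn_congr (mem_cls.1 hc)]
        _ = 1 := by
            rw [sum_const, nsmul_eq_mul]
            exact mul_inv_cancel₀ (nn_pos _ _).ne'
  calc _ ≤ ∑ x ∈ Icc (lab a j - D) (lab a j + D), (1 : ℝ) := sum_le_sum h2
    _ = 2 * D + 1 := by
        rw [sum_const, nsmul_eq_mul, mul_one, Int.card_Icc]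
        have : (lab a j + D + 1 - (lab a j - D)).toNat = 2 * D + 1 := by omega
        rw [this]
        push_cast
        ring

theorem count {s : ℝ} (hs : 0 < s) (hs1 : s < 1) (j : Fin m) (a : ι) (D : ℕ) :
    ∑ c ∈ cls lab j a with dd lab j a c ≤ D, nn lab (j + 1) c ^ (s - 1) ≤
      (2 * (1 + (D : ℝ))) ^ (1 - s) * nn lab j a ^ s := by
  set T := (cls lab j a).filter (fun c => dd lab j a c ≤ D) with hT
  have h1s : 0 < 1 - s := by linarith
  have hol := Real.inner_le_Lp_mul_Lq_of_nonneg T (p := 1 / (1 - s)) (q := 1 / s)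
      (f := fun c => nn lab (j + 1) c ^ (s - 1)) (g := fun _ => 1)
      (by
        rw [Real.holderConjugate_iff]
        constructor
        · rw [lt_div_iff₀ h1s]; linarith
        · simp)
      (fun c _ => Real.rpow_nonneg (nn_pos _ _).le _) (fun _ _ => zero_le_one)
  simp only [mul_one, Real.one_rpow, one_div_one_div] at hol
  refine hol.trans ?_
  have e1 : ∑ c ∈ T, (nn lab (j + 1) c ^ (s - 1)) ^ (1 / (1 - s)) = ∑ c ∈ T, (nn lab (j + 1) c)⁻¹ := by
    refine sum_congr rfl fun c _ => ?_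
    rw [← Real.rpow_mul (nn_pos _ _).le, ← Real.rpow_neg_one]
    congr 1
    have := h1s.ne'
    rw [mul_one_div, div_eq_iff this]
    ring
  rw [e1]
  have h2 := inv_sum (lab := lab) j a D
  have h3 : ∑ _c ∈ T, (1 : ℝ) ≤ nn lab j a := by
    rw [sum_const, nsmul_eq_mul, mul_one]
    unfold nn
    exact_mod_cast card_le_card (filter_subset _ _)
  apply mul_le_mul
  · apply Real.rpow_le_rpow (sum_nonneg fun c _ => (inv_pos.2 (nn_pos _ _)).le) _ h1s.le
    refine h2.trans ?_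
    have : (0 : ℝ) ≤ D := by positivity
    linarith
  · exact Real.rpow_le_rpow (sum_nonneg fun _ _ => zero_le_one) h3 hs.le
  · positivity
  · positivity

/-- The power of the weighted number of the present siblings. -/
theorem R_pow {s γ : ℝ} (hs : 0 < s) (hs1 : s < 1) (hγ : 1 ≤ γ) (Q : Fin m → ι → Prop) (j : Fin m)
    (a : ι) :
    R lab s Q j a ^ γ ≤ γ * ∑ b ∈ cls lab j a with Q j b, nn lab (j + 1) a ^ (-(s * γ)) *
      nn lab (j + 1) b ^ (s - 1) *
        ((2 * (1 + (dd lab j a b : ℝ))) ^ (1 - s) * nn lab j a ^ s) ^ (γ - 1) := by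
  have hna := nn_pos (lab := lab) (j + 1) a
  set P := (cls lab j a).filter (fun b => Q j b) with hP
  unfold R
  rw [Real.div_rpow (sum_nonneg fun b _ => Real.rpow_nonneg (nn_pos _ _).le _)
    (Real.rpow_nonneg hna.le _), ← Real.rpow_mul hna.le, div_eq_mul_inv, ← Real.rpow_neg hna.le]
  have h1 := ord_pow hγ P (fun b => nn lab (j + 1) b ^ (s - 1))
    (fun b => Real.rpow_nonneg (nn_pos _ _).le _) (fun b => dd lab j a b)
  have h2 : ∀ b ∈ P, nn lab (j + 1) b ^ (s - 1) *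
      (∑ c ∈ P with dd lab j a c ≤ dd lab j a b, nn lab (j + 1) c ^ (s - 1)) ^ (γ - 1) ≤
      nn lab (j + 1) b ^ (s - 1) *
        ((2 * (1 + (dd lab j a b : ℝ))) ^ (1 - s) * nn lab j a ^ s) ^ (γ - 1) := by
    intro b _
    apply mul_le_mul_of_nonneg_left _ (Real.rpow_nonneg (nn_pos _ _).le _)
    apply Real.rpow_le_rpow (sum_nonneg fun c _ => Real.rpow_nonneg (nn_pos _ _).le _) _ (by linarith)
    refine le_trans ?_ (count (lab := lab) hs hs1 j a (dd lab j a b))
    apply sum_le_sum_of_subset_of_nonneg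
    · exact filter_subset_filter _ (filter_subset _ _)
    · intro c _ _
      exact Real.rpow_nonneg (nn_pos _ _).le _
  have h3 : (∑ b ∈ P, nn lab (j + 1) b ^ (s - 1)) ^ γ ≤ γ * ∑ b ∈ P, nn lab (j + 1) b ^ (s - 1) *
        ((2 * (1 + (dd lab j a b : ℝ))) ^ (1 - s) * nn lab j a ^ s) ^ (γ - 1) := by
    refine h1.trans ?_
    apply mul_le_mul_of_nonneg_left (sum_le_sum h2) (by linarith)
  calc _ ≤ (γ * ∑ b ∈ P, nn lab (j + 1) b ^ (s - 1) *
        ((2 * (1 + (dd lab j a b : ℝ))) ^ (1 - s) * nn lab j a ^ s) ^ (γ - 1)) *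
          nn lab (j + 1) a ^ (-(s * γ)) := by
        apply mul_le_mul_of_nonneg_right h3 (Real.rpow_nonneg hna.le _)
    _ = _ := by
        rw [mul_assoc, sum_mul]
        congr 1
        refine sum_congr rfl fun b _ => ?_
        ring

/-- The coefficients. -/
noncomputable def coef (lab : ι → Fin m → ℤ) (s γ : ℝ) (j : Fin m) (a b : ι) : ℝ :=
  1 / (m : ℝ) * (bal lab γ j a * (γ * (nn lab (j + 1) a ^ (-(s * γ)) *
      nn lab (j + 1) b ^ (s - 1) *
        ((2 * (1 + (dd lab j a b : ℝ))) ^ (1 - s) * nn lab j a ^ s) ^ (γ - 1))))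

theorem coef_nonneg {s γ : ℝ} (hγ : 1 ≤ γ) (j : Fin m) (a b : ι) : 0 ≤ coef lab s γ j a b := by
  unfold coef
  have : Nonempty ι := ⟨a⟩
  have h1 := bal_pos (lab := lab) γ j a
  have h2 := nn_pos (lab := lab) (j + 1) a
  have h3 := nn_pos (lab := lab) (j + 1) b
  have h4 := nn_pos (lab := lab) j a
  positivity

/-- The pointwise inequality. -/
theorem pointwise (hm : 1 ≤ m) (hinj : Function.Injective lab) {s γ : ℝ} (hs : 0 < s)
    (hs1 : s < 1) (hγ : 1 ≤ γ) (Q : Fin m → ι → Prop)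
    (hQ : ∀ (j : Fin m) a b, agr lab (j + 1) a b → (Q j a ↔ Q j b)) (P : Finset ι)
    (hP : ∀ a ∈ P, ∀ l, Q l a) :
    (P.card : ℝ) ^ (1 + γ / m) ≤
      ∑ a ∈ P, ∑ j, ∑ b ∈ cls lab j a with Q j b, coef lab s γ j a b := by
  have hm0 : (0 : ℝ) < m := by exact_mod_cast hm
  have h1 := card_pow hinj s Q hQ P hP (q := 1 + γ / m) (by
    have : 0 ≤ γ / m := by positivity
    linarith)
  refine h1.trans (sum_le_sum fun a ha => ?_)
  have : Nonempty ι := ⟨a⟩
  rw [add_sub_cancel_left]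
  refine (mean_le (lab := lab) hm hinj a _ (fun j => R_nonneg s Q j a)).trans ?_
  apply sum_le_sum
  intro j _
  have h2 := R_pow (lab := lab) hs hs1 hγ Q j a
  calc 1 / (m : ℝ) * (bal lab γ j a * R lab s Q j a ^ γ)
      ≤ 1 / (m : ℝ) * (bal lab γ j a * (γ * ∑ b ∈ cls lab j a with Q j b,
          nn lab (j + 1) a ^ (-(s * γ)) * nn lab (j + 1) b ^ (s - 1) *
        ((2 * (1 + (dd lab j a b : ℝ))) ^ (1 - s) * nn lab j a ^ s) ^ (γ - 1))) := by
        apply mul_le_mul_of_nonneg_left _ (by positivity)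
        exact mul_le_mul_of_nonneg_left h2 (bal_pos γ j a).le
    _ = _ := by
        rw [mul_sum, mul_sum, mul_sum]
        rfl

/-- Sums over a class as sums over the labels. -/
theorem fib {s : ℝ} (j : Fin m) (o : ι) (G : ℤ → ℝ) :
    ∑ b ∈ cls lab j o, nn lab (j + 1) b ^ (s - 1) * G (lab b j) =
      ∑ x ∈ (cls lab j o).image (fun b => lab b j),
        (((cls lab j o).filter (fun b => lab b j = x)).card : ℝ) ^ s * G x := by
  rw [← sum_fiberwise_of_maps_to (g := fun b => lab b j)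
    (fun b hb => mem_image_of_mem (fun b => lab b j) hb)]
  refine sum_congr rfl fun x hx => ?_
  obtain ⟨c₀, hc₀, hx0⟩ := mem_image.1 hx
  set F := (cls lab j o).filter (fun b => lab b j = x) with hF
  have hF0 : F = cls lab (j + 1) c₀ := by
    ext b
    rw [hF, mem_filter, mem_cls, mem_cls, agr_succ]
    have hc := mem_cls.1 hc₀
    constructor
    · rintro ⟨h1, h2⟩
      exact ⟨agr_trans (agr_symm hc) h1, hx0.trans h2.symm⟩
    · rintro ⟨h1, h2⟩
      exact ⟨agr_trans hc h1, h2.symm.trans hx0⟩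
  have hcard : (F.card : ℝ) = nn lab (j + 1) c₀ := by
    rw [hF0]
    rfl
  have h1 : ∀ b ∈ F, nn lab (j + 1) b ^ (s - 1) * G (lab b j) = nn lab (j + 1) c₀ ^ (s - 1) * G x := by
    intro b hb
    have h2 : agr lab (j + 1) c₀ b := by
      rw [hF0] at hb
      exact mem_cls.1 hb
    rw [← nn_congr h2, (mem_filter.1 hb).2]
  rw [sum_congr rfl h1, sum_const, nsmul_eq_mul, hcard]
  have hn := nn_pos (lab := lab) (j + 1) c₀
  rw [Real.rpow_sub_one hn.ne']
  field_simp

theorem class_sum {s : ℝ} (hs : 1 / 2 < s) (hs1 : s < 1) (j : Fin m) (o : ι) :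
    ∑ a ∈ cls lab j o, nn lab (j + 1) a ^ (s - 1) * ∑ b ∈ cls lab j o,
      nn lab (j + 1) b ^ (s - 1) * (1 + (dd lab j a b : ℝ)) ^ (-(2 - 2 * s)) ≤
      2 * (2 / (2 * s - 1) + 4) * nn lab j o ^ (2 * s) := by
  set n : ℤ → ℝ := fun x => (((cls lab j o).filter (fun b => lab b j = x)).card : ℝ) with hn
  set S := (cls lab j o).image (fun b => lab b j) with hS
  have h1 : ∀ a ∈ cls lab j o, nn lab (j + 1) a ^ (s - 1) * ∑ b ∈ cls lab j o,
      nn lab (j + 1) b ^ (s - 1) * (1 + (dd lab j a b : ℝ)) ^ (-(2 - 2 * s)) =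
      nn lab (j + 1) a ^ (s - 1) * (fun y : ℤ => ∑ x ∈ S, n x ^ s *
        (1 + ((x - y).natAbs : ℝ)) ^ (-(2 - 2 * s))) (lab a j) := by
    intro a _
    congr 1
    exact fib (lab := lab) j o (fun x => (1 + ((x - lab a j).natAbs : ℝ)) ^ (-(2 - 2 * s)))
  rw [sum_congr rfl h1, fib (lab := lab) j o (fun y : ℤ => ∑ x ∈ S, n x ^ s *
        (1 + ((x - y).natAbs : ℝ)) ^ (-(2 - 2 * s)))]
  have h2 : ∑ x ∈ S, n x = nn lab j o := by
    unfold nn
    rw [card_eq_sum_card_image (fun b => lab b j)]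
    push_cast
    rfl
  have h3 := hls hs hs1 S n (by
    intro x hx
    obtain ⟨c, hc, hcx⟩ := mem_image.1 hx
    have : 0 < ((cls lab j o).filter (fun b => lab b j = x)).card :=
      card_pos.2 ⟨c, mem_filter.2 ⟨hc, hcx⟩⟩
    simp only [hn]
    exact_mod_cast this)
  rw [h2] at h3
  refine le_trans (le_of_eq ?_) h3
  refine sum_congr rfl fun y _ => ?_
  rw [mul_sum]

theorem double_univ (i' : ℕ) (g : ι → ℝ) :
    ∑ a, g a = ∑ b, (nn lab i' b)⁻¹ * ∑ a ∈ cls lab i' b, g a := by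
  rcases isEmpty_or_nonempty ι with h | ⟨⟨o⟩⟩
  · simp
  · have h2 : cls lab 0 o = univ := by
      ext b
      simp only [mem_cls, mem_univ, iff_true]
      intro l hl
      omega
    have := double (lab := lab) (Nat.zero_le i') o g
    rwa [h2] at this

/-- The exponent of the weights. -/
noncomputable def se (γ : ℝ) : ℝ := γ / (γ + 1)

theorem se_gt {γ : ℝ} (hγ : 1 < γ) : 1 / 2 < se γ := by
  unfold se
  rw [div_lt_div_iff₀ (by norm_num) (by linarith)]
  linarith

theorem se_lt {γ : ℝ} (hγ : 1 < γ) : se γ < 1 := by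
  unfold se
  rw [div_lt_one (by linarith)]
  linarith

theorem coef_eq {γ : ℝ} (hγ : 1 < γ) (j : Fin m) (a b : ι) :
    coef lab (se γ) γ j a b / (1 + (dd lab j a b : ℝ)) =
      1 / (m : ℝ) * γ * 2 ^ (2 * se γ - 1) * (Fintype.card ι : ℝ) ^ ((γ - 1) / m) *
        (nn lab j a ^ (1 - 2 * se γ) * (nn lab (j + 1) a ^ (se γ - 1) *
          (nn lab (j + 1) b ^ (se γ - 1) * (1 + (dd lab j a b : ℝ)) ^ (-(2 - 2 * se γ))))) := by
  unfold coef bal
  set s := se γ with hs
  have hγ1 : γ + 1 ≠ 0 := by linarith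
  have hsγ : s * (γ + 1) = γ := by
    rw [hs]
    unfold se
    field_simp
  have : Nonempty ι := ⟨a⟩
  have hN : (0 : ℝ) < Fintype.card ι := by exact_mod_cast Fintype.card_pos
  set N : ℝ := (Fintype.card ι : ℝ) with hNd
  have ha := nn_pos (lab := lab) (j + 1) a
  have hb := nn_pos (lab := lab) (j + 1) b
  have hja := nn_pos (lab := lab) j a
  set x := nn lab (j + 1) a with hx
  set y := nn lab (j + 1) b with hy
  set z := nn lab j a with hz
  have hd : (0 : ℝ) < 1 + (dd lab j a b : ℝ) := by positivity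
  set d : ℝ := 1 + (dd lab j a b : ℝ) with hdd
  have e1 : (N ^ (1 / (m : ℝ)) * (x / z)) ^ (γ - 1) =
      N ^ ((γ - 1) / m) * (x ^ (γ - 1) * z ^ (-(γ - 1))) := by
    rw [Real.mul_rpow (by positivity) (by positivity), ← Real.rpow_mul hN.le,
      Real.div_rpow ha.le hja.le, Real.rpow_neg hja.le]
    congr 2
    ring
  have e2 : ((2 * d) ^ (1 - s) * z ^ s) ^ (γ - 1) =
      2 ^ ((1 - s) * (γ - 1)) * (d ^ ((1 - s) * (γ - 1)) * z ^ (s * (γ - 1))) := by
    rw [Real.mul_rpow (by positivity) (by positivity), ← Real.rpow_mul (by positivity),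
      ← Real.rpow_mul hja.le, Real.mul_rpow (by norm_num) hd.le, mul_assoc]
  have e3 : (1 - s) * (γ - 1) = 2 * s - 1 := by nlinarith
  have e4 : x ^ (γ - 1) * x ^ (-(s * γ)) = x ^ (s - 1) := by
    rw [← Real.rpow_add ha]
    congr 1
    nlinarith
  have e5 : z ^ (-(γ - 1)) * z ^ (s * (γ - 1)) = z ^ (1 - 2 * s) := by
    rw [← Real.rpow_add hja]
    congr 1
    nlinarith
  have e6 : d ^ (2 * s - 1) / d = d ^ (-(2 - 2 * s)) := by
    rw [← Real.rpow_sub_one hd.ne']
    congr 1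
    ring
  rw [e1, e2, e3, ← e6, ← e4, ← e5]
  field_simp

/-- The sum of the coefficients. -/
theorem coef_sum (hm : 1 ≤ m) {γ : ℝ} (hγ : 1 < γ) :
    ∑ a, ∑ j : Fin m, ∑ b ∈ cls lab j a, coef lab (se γ) γ j a b / (1 + (dd lab j a b : ℝ)) ≤
      γ * 2 ^ (2 * se γ - 1) * (2 * (2 / (2 * se γ - 1) + 4)) *
        (Fintype.card ι : ℝ) ^ (1 + (γ - 1) / m) := by
  have hm0 : (0 : ℝ) < m := by exact_mod_cast hm
  rcases isEmpty_or_nonempty ι with h | hne
  · simp only [univ_eq_empty, sum_empty]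
    have h1 := se_gt hγ
    have h2 : 0 < 2 * se γ - 1 := by linarith
    positivity
  have hN : (0 : ℝ) < Fintype.card ι := by exact_mod_cast Fintype.card_pos
  set N : ℝ := (Fintype.card ι : ℝ) with hNd
  set s := se γ with hs
  have hs1 := se_gt hγ
  have hs2 := se_lt hγ
  rw [← hs] at hs1 hs2
  have h2s : 0 < 2 * s - 1 := by linarith
  rw [sum_comm]
  have hj : ∀ j : Fin m, ∑ a, ∑ b ∈ cls lab j a, coef lab s γ j a b / (1 + (dd lab j a b : ℝ)) ≤
      1 / (m : ℝ) * γ * 2 ^ (2 * s - 1) * N ^ ((γ - 1) / m) *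
        (2 * (2 / (2 * s - 1) + 4) * N) := by
    intro j
    have h1 : ∀ a : ι, ∑ b ∈ cls lab j a, coef lab s γ j a b / (1 + (dd lab j a b : ℝ)) =
        1 / (m : ℝ) * γ * 2 ^ (2 * s - 1) * N ^ ((γ - 1) / m) *
        (nn lab j a ^ (1 - 2 * s) * (nn lab (j + 1) a ^ (s - 1) * ∑ b ∈ cls lab j a,
          nn lab (j + 1) b ^ (s - 1) * (1 + (dd lab j a b : ℝ)) ^ (-(2 - 2 * s)))) := by
      intro a
      rw [sum_congr rfl fun b _ => coef_eq (lab := lab) hγ j a b, mul_sum, mul_sum, mul_sum]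
    rw [sum_congr rfl fun a _ => h1 a, ← mul_sum]
    apply mul_le_mul_of_nonneg_left _ (by positivity)
    rw [double_univ (lab := lab) j]
    have h2 : ∀ o : ι, (nn lab j o)⁻¹ * ∑ a ∈ cls lab j o, (nn lab j a ^ (1 - 2 * s) *
        (nn lab (j + 1) a ^ (s - 1) * ∑ b ∈ cls lab j a,
          nn lab (j + 1) b ^ (s - 1) * (1 + (dd lab j a b : ℝ)) ^ (-(2 - 2 * s)))) ≤
        2 * (2 / (2 * s - 1) + 4) := by
      intro o
      have ho := nn_pos (lab := lab) j o
      have h3 : ∑ a ∈ cls lab j o, (nn lab j a ^ (1 - 2 * s) *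
        (nn lab (j + 1) a ^ (s - 1) * ∑ b ∈ cls lab j a,
          nn lab (j + 1) b ^ (s - 1) * (1 + (dd lab j a b : ℝ)) ^ (-(2 - 2 * s)))) =
          nn lab j o ^ (1 - 2 * s) * ∑ a ∈ cls lab j o, nn lab (j + 1) a ^ (s - 1) *
            ∑ b ∈ cls lab j o, nn lab (j + 1) b ^ (s - 1) *
              (1 + (dd lab j a b : ℝ)) ^ (-(2 - 2 * s)) := by
        rw [mul_sum]
        refine sum_congr rfl fun a ha => ?_
        rw [← nn_congr (mem_cls.1 ha), ← cls_congr (mem_cls.1 ha)]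
      rw [h3]
      have h4 := class_sum (lab := lab) hs1 hs2 j o
      calc (nn lab j o)⁻¹ * (nn lab j o ^ (1 - 2 * s) * ∑ a ∈ cls lab j o, nn lab (j + 1) a ^ (s - 1) *
            ∑ b ∈ cls lab j o, nn lab (j + 1) b ^ (s - 1) *
              (1 + (dd lab j a b : ℝ)) ^ (-(2 - 2 * s)))
          ≤ (nn lab j o)⁻¹ * (nn lab j o ^ (1 - 2 * s) *
              (2 * (2 / (2 * s - 1) + 4) * nn lab j o ^ (2 * s))) := by
            gcongr
        _ = 2 * (2 / (2 * s - 1) + 4) * ((nn lab j o)⁻¹ * (nn lab j o ^ (1 - 2 * s) *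
              nn lab j o ^ (2 * s))) := by ring
        _ = 2 * (2 / (2 * s - 1) + 4) := by
            rw [← Real.rpow_add ho]
            have : (1 - 2 * s) + 2 * s = 1 := by ring
            rw [this, Real.rpow_one, inv_mul_cancel₀ ho.ne', mul_one]
    calc _ ≤ ∑ _o : ι, 2 * (2 / (2 * s - 1) + 4) := sum_le_sum fun o _ => h2 o
      _ = 2 * (2 / (2 * s - 1) + 4) * N := by
          rw [sum_const, card_univ, nsmul_eq_mul, mul_comm]
  calc _ ≤ ∑ _j : Fin m, 1 / (m : ℝ) * γ * 2 ^ (2 * s - 1) * N ^ ((γ - 1) / m) *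
        (2 * (2 / (2 * s - 1) + 4) * N) := sum_le_sum fun j _ => hj j
    _ = γ * 2 ^ (2 * s - 1) * (2 * (2 / (2 * s - 1) + 4)) * (N * N ^ ((γ - 1) / m)) := by
        rw [sum_const, card_univ, Fintype.card_fin, nsmul_eq_mul]
        field_simp
    _ = _ := by
        rw [Real.rpow_add hN, Real.rpow_one]

end Q67.KT
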