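import Pool.Agent.Q67.KT.Hls
set_option autoImplicit false
set_option linter.unusedSectionVars false

/-!
# Families organised in a tree: the pointwise inequality
-/

open Finset
open scoped Classical

namespace Q67.KT

variable {ι : Type} [Fintype ι] {m : ℕ} (lab : ι → Fin m → ℤ)

/-- The labels agree before the position `i`. -/
def agr (i : ℕ) (a b : ι) : Prop := ∀ l : Fin m, (l : ℕ) < i → lab a l = lab b l

/-- The members of the family whose labels agree with the label of `a` before `i`. -/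
noncomputable def cls (i : ℕ) (a : ι) : Finset ι := univ.filter (fun b => agr lab i a b)

/-- Their number. -/
noncomputable def nn (i : ℕ) (a : ι) : ℝ := (cls lab i a).card

variable {lab}

theorem agr_refl (i : ℕ) (a : ι) : agr lab i a a := fun _ _ => rfl

theorem agr_symm {i : ℕ} {a b : ι} (h : agr lab i a b) : agr lab i b a := fun l hl => (h l hl).symm

theorem agr_trans {i : ℕ} {a b c : ι} (h : agr lab i a b) (h' : agr lab i b c) : agr lab i a c :=
  fun l hl => (h l hl).trans (h' l hl)

theorem agr_mono {i i' : ℕ} (hi : i ≤ i') {a b : ι} (h : agr lab i' a b) : agr lab i a b :=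
  fun l hl => h l (lt_of_lt_of_le hl hi)

theorem mem_cls {i : ℕ} {a b : ι} : b ∈ cls lab i a ↔ agr lab i a b := by
  simp [cls]

theorem agr_succ {j : Fin m} {a b : ι} :
    agr lab (j + 1) a b ↔ agr lab j a b ∧ lab a j = lab b j := by
  constructor
  · intro h
    exact ⟨agr_mono (Nat.le_succ _) h, h j (Nat.lt_succ_self _)⟩
  · rintro ⟨h1, h2⟩ l hl
    rcases Nat.lt_succ_iff_lt_or_eq.1 hl with h | h
    · exact h1 l h
    · have : l = j := Fin.ext h
      rw [this]
      exact h2

theorem cls_congr {i : ℕ} {a b : ι} (h : agr lab i a b) : cls lab i a = cls lab i b := by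
  ext c
  rw [mem_cls, mem_cls]
  exact ⟨fun h' => agr_trans (agr_symm h) h', fun h' => agr_trans h h'⟩

theorem nn_congr {i : ℕ} {a b : ι} (h : agr lab i a b) : nn lab i a = nn lab i b := by
  unfold nn
  rw [cls_congr h]

theorem nn_pos (i : ℕ) (a : ι) : 0 < nn lab i a := by
  unfold nn
  have : 0 < (cls lab i a).card := card_pos.2 ⟨a, mem_cls.2 (agr_refl i a)⟩
  exact_mod_cast this

theorem nn_zero (a : ι) : nn lab 0 a = Fintype.card ι := by
  unfold nn cls
  rw [filter_true_of_mem]
  · rfl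
  · intro b _ l hl
    omega

theorem nn_top (hinj : Function.Injective lab) (a : ι) : nn lab m a = 1 := by
  unfold nn
  have : cls lab m a = {a} := by
    ext b
    rw [mem_cls, mem_singleton]
    constructor
    · intro h
      apply hinj
      funext l
      exact (h l l.2).symm
    · rintro rfl
      exact agr_refl _ _
  rw [this]
  simp

/-- Double counting. -/
theorem double {i i' : ℕ} (hi : i ≤ i') (o : ι) (g : ι → ℝ) :
    ∑ a ∈ cls lab i o, g a = ∑ b ∈ cls lab i o, (nn lab i' b)⁻¹ * ∑ a ∈ cls lab i' b, g a := by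
  simp only [mul_sum]
  rw [sum_comm' (s' := fun a => cls lab i' a) (t' := cls lab i o)]
  · refine sum_congr rfl fun a _ => ?_
    have h1 : ∀ b ∈ cls lab i' a, (nn lab i' b)⁻¹ * g a = (nn lab i' a)⁻¹ * g a := by
      intro b hb
      rw [nn_congr (mem_cls.1 hb)]
    rw [sum_congr rfl h1, sum_const, nsmul_eq_mul]
    have h2 : ((cls lab i' a).card : ℝ) = nn lab i' a := rfl
    rw [h2, ← mul_assoc, mul_inv_cancel₀ (nn_pos i' a).ne', one_mul]
  · intro b a
    simp only [mem_cls]
    constructor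
    · rintro ⟨h1, h2⟩
      exact ⟨agr_symm h2, agr_trans h1 (agr_mono hi h2)⟩
    · rintro ⟨h1, h2⟩
      exact ⟨agr_trans h2 (agr_mono hi h1), agr_symm h1⟩

/-- The weighted number of the present siblings, over the weight of the node. -/
noncomputable def R (lab : ι → Fin m → ℤ) (s : ℝ) (Q : Fin m → ι → Prop) (j : Fin m) (a : ι) : ℝ :=
  (∑ b ∈ cls lab j a with Q j b, nn lab (j + 1) b ^ (s - 1)) / nn lab (j + 1) a ^ s

theorem R_pos {s : ℝ} {Q : Fin m → ι → Prop} {j : Fin m} {a : ι} (ha : Q j a) :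
    0 < R lab s Q j a := by
  unfold R
  apply div_pos _ (Real.rpow_pos_of_pos (nn_pos _ _) _)
  apply sum_pos
  · intro b _
    exact Real.rpow_pos_of_pos (nn_pos _ _) _
  · exact ⟨a, mem_filter.2 ⟨mem_cls.2 (agr_refl _ _), ha⟩⟩

theorem R_nonneg (s : ℝ) (Q : Fin m → ι → Prop) (j : Fin m) (a : ι) : 0 ≤ R lab s Q j a := by
  unfold R
  apply div_nonneg _ (Real.rpow_nonneg (nn_pos _ _).le _)
  apply sum_nonneg
  intro b _
  exact Real.rpow_nonneg (nn_pos _ _).le _

/-- The tree inequality, from level `i` on. -/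
theorem tree (hinj : Function.Injective lab) (s : ℝ) (Q : Fin m → ι → Prop)
    (hQ : ∀ (j : Fin m) a b, agr lab (j + 1) a b → (Q j a ↔ Q j b)) (t : ℕ) :
    ∀ i, i + t = m → ∀ o : ι, ∑ a ∈ cls lab i o,
      (if ∀ l : Fin m, i ≤ l → Q l a then ∏ l ∈ univ.filter (fun l : Fin m => i ≤ l), (R lab s Q l a)⁻¹
        else 0) ≤ 1 := by
  induction t with
  | zero =>
    intro i hi o
    have hf : (univ.filter fun l : Fin m => i ≤ (l : ℕ)) = ∅ := by
      apply filter_false_of_mem
      intro l _
      have := l.2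
      omega
    rw [hf]
    simp only [prod_empty]
    have him : i = m := by omega
    calc ∑ a ∈ cls lab i o, (if ∀ l : Fin m, i ≤ l → Q l a then (1 : ℝ) else 0)
        ≤ ∑ a ∈ cls lab i o, (1 : ℝ) := by
          apply sum_le_sum
          intro a _
          split_ifs <;> norm_num
      _ = nn lab i o := by
          rw [sum_const, nsmul_eq_mul, mul_one]
          rfl
      _ ≤ 1 := by rw [him, nn_top hinj]
  | succ t ih =>
    intro i hi o
    have hlt : i < m := by omega
    set j : Fin m := ⟨i, hlt⟩ with hj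
    have hji : (j : ℕ) = i := rfl
    set h : ι → ℝ := fun a => if ∀ l : Fin m, i + 1 ≤ l → Q l a then
      ∏ l ∈ univ.filter (fun l : Fin m => i + 1 ≤ l), (R lab s Q l a)⁻¹ else 0 with hh
    set g : ι → ℝ := fun a => if Q j a then (R lab s Q j a)⁻¹ else 0 with hg
    have hfil : (univ.filter fun l : Fin m => i ≤ (l : ℕ)) =
        insert j (univ.filter fun l : Fin m => i + 1 ≤ (l : ℕ)) := by
      ext l
      simp only [mem_filter, mem_univ, true_and, mem_insert]
      constructor
      · intro hl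
        rcases eq_or_lt_of_le hl with h1 | h1
        · left
          exact Fin.ext h1.symm
        · right
          omega
      · rintro (h1 | h1)
        · rw [h1]
        · omega
    have hnot : j ∉ (univ.filter fun l : Fin m => i + 1 ≤ (l : ℕ)) := by
      simp [hj]
    have hprod : ∀ a, (if ∀ l : Fin m, i ≤ l → Q l a then
        ∏ l ∈ univ.filter (fun l : Fin m => i ≤ l), (R lab s Q l a)⁻¹ else 0) = g a * h a := by
      intro a
      have hiff : (∀ l : Fin m, i ≤ l → Q l a) ↔ (Q j a ∧ ∀ l : Fin m, i + 1 ≤ l → Q l a) := by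
        constructor
        · intro h1
          exact ⟨h1 j le_rfl, fun l hl => h1 l (by omega)⟩
        · rintro ⟨h1, h2⟩ l hl
          rcases eq_or_lt_of_le hl with h3 | h3
          · have : l = j := Fin.ext h3.symm
            rw [this]
            exact h1
          · exact h2 l h3
      rw [hfil, prod_insert hnot]
      simp only [hg, hh]
      by_cases h1 : Q j a
      · by_cases h2 : ∀ l : Fin m, i + 1 ≤ l → Q l a
        · rw [if_pos (hiff.2 ⟨h1, h2⟩), if_pos h1, if_pos h2]
        · rw [if_neg (fun h3 => h2 (hiff.1 h3).2), if_neg h2, mul_zero]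
      · rw [if_neg (fun h3 => h1 (hiff.1 h3).1), if_neg h1, zero_mul]
    rw [sum_congr rfl fun a _ => hprod a, double (Nat.le_succ i)]
    have hg0 : ∀ a, 0 ≤ g a := by
      intro a
      simp only [hg]
      split_ifs
      · exact inv_nonneg.2 (R_nonneg s Q j a)
      · exact le_rfl
    have hRc : ∀ a b, agr lab (i + 1) a b → R lab s Q j a = R lab s Q j b := by
      intro a b hab
      unfold R
      rw [cls_congr (agr_mono (by simp [hj]) hab : agr lab j a b), nn_congr (i := (j : ℕ) + 1) hab]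
    have hgc : ∀ a b, agr lab (i + 1) a b → g a = g b := by
      intro a b hab
      simp only [hg]
      rw [hRc a b hab]
      simp only [hQ j a b hab]
    have hstep : ∀ b ∈ cls lab i o, (nn lab (i + 1) b)⁻¹ * ∑ a ∈ cls lab (i + 1) b, g a * h a ≤
        (nn lab (i + 1) b)⁻¹ * g b := by
      intro b _
      have h1 : ∑ a ∈ cls lab (i + 1) b, g a * h a = g b * ∑ a ∈ cls lab (i + 1) b, h a := by
        rw [mul_sum]
        refine sum_congr rfl fun a ha => ?_
        rw [hgc b a (mem_cls.1 ha)]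
      rw [h1]
      have h2 := ih (i + 1) (by omega) b
      have h3 : 0 ≤ (nn lab (i + 1) b)⁻¹ := (inv_pos.2 (nn_pos _ _)).le
      apply mul_le_mul_of_nonneg_left _ h3
      calc g b * ∑ a ∈ cls lab (i + 1) b, h a ≤ g b * 1 := mul_le_mul_of_nonneg_left h2 (hg0 b)
        _ = g b := mul_one _
    refine (sum_le_sum hstep).trans ?_
    set D := ∑ b ∈ cls lab i o with Q j b, nn lab (i + 1) b ^ (s - 1) with hD
    have h4 : ∀ b ∈ cls lab i o, (nn lab (i + 1) b)⁻¹ * g b =
        if Q j b then nn lab (i + 1) b ^ (s - 1) / D else 0 := by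
      intro b hb
      simp only [hg]
      split_ifs with hQb
      · have hn := nn_pos (lab := lab) (i + 1) b
        have hRb : R lab s Q j b = D / nn lab (i + 1) b ^ s := by
          unfold R
          rw [← cls_congr (mem_cls.1 hb : agr lab j o b)]
        rw [hRb, inv_div, Real.rpow_sub_one hn.ne']
        field_simp
      · rw [mul_zero]
    rw [sum_congr rfl h4, ← sum_filter, ← sum_div, ← hD]
    exact div_self_le_one D

/-- The tree inequality. -/
theorem tree_le (hinj : Function.Injective lab) (s : ℝ) (Q : Fin m → ι → Prop)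
    (hQ : ∀ (j : Fin m) a b, agr lab (j + 1) a b → (Q j a ↔ Q j b)) (P : Finset ι)
    (hP : ∀ a ∈ P, ∀ l, Q l a) :
    ∑ a ∈ P, (∏ l, R lab s Q l a)⁻¹ ≤ 1 := by
  rcases P.eq_empty_or_nonempty with rfl | ⟨o, ho⟩
  · simp
  have h1 := tree hinj s Q hQ m 0 (by omega) o
  refine le_trans ?_ h1
  have h2 : cls lab 0 o = univ := by
    ext b
    simp only [mem_cls, mem_univ, iff_true]
    intro l hl
    omega
  rw [h2]
  calc ∑ a ∈ P, (∏ l, R lab s Q l a)⁻¹
      = ∑ a ∈ P, (if ∀ l : Fin m, 0 ≤ (l : ℕ) → Q l a then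
          ∏ l ∈ univ.filter (fun l : Fin m => 0 ≤ (l : ℕ)), (R lab s Q l a)⁻¹ else 0) := by
        refine sum_congr rfl fun a ha => ?_
        rw [if_pos fun l _ => hP a ha l, filter_true_of_mem fun l _ => Nat.zero_le _, prod_inv_distrib]
    _ ≤ _ := by
        apply sum_le_sum_of_subset_of_nonneg (subset_univ P)
        intro a _ _
        split_ifs
        · exact prod_nonneg fun l _ => inv_nonneg.2 (R_nonneg s Q l a)
        · exact le_rfl

/-- A power of the number of members of `P` is at most a sum of powers. -/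
theorem card_pow (hinj : Function.Injective lab) (s : ℝ) (Q : Fin m → ι → Prop)
    (hQ : ∀ (j : Fin m) a b, agr lab (j + 1) a b → (Q j a ↔ Q j b)) (P : Finset ι)
    (hP : ∀ a ∈ P, ∀ l, Q l a) {q : ℝ} (hq : 1 ≤ q) :
    (P.card : ℝ) ^ q ≤ ∑ a ∈ P, (∏ l, R lab s Q l a) ^ (q - 1) := by
  rcases P.eq_empty_or_nonempty with rfl | hne
  · simp [Real.zero_rpow (by linarith : q ≠ 0)]
  have hpos : ∀ a ∈ P, 0 < ∏ l, R lab s Q l a := fun a ha => prod_pos fun l _ => R_pos (hP a ha l)
  set Z := ∑ a ∈ P, (∏ l, R lab s Q l a)⁻¹ with hS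
  have hS0 : 0 < Z := sum_pos (fun a ha => inv_pos.2 (hpos a ha)) hne
  have hS1 : Z ≤ 1 := tree_le hinj s Q hQ P hP
  have h1 := Real.rpow_arith_mean_le_arith_mean_rpow P (fun a => (∏ l, R lab s Q l a)⁻¹ / Z)
    (fun a => ∏ l, R lab s Q l a) (fun a ha => div_nonneg (inv_nonneg.2 (hpos a ha).le) hS0.le)
    (by rw [← sum_div, div_self hS0.ne']) (fun a ha => (hpos a ha).le) hq
  have e1 : ∑ a ∈ P, (∏ l, R lab s Q l a)⁻¹ / Z * ∏ l, R lab s Q l a = P.card / Z := by
    rw [sum_congr rfl (g := fun _ => 1 / Z), sum_const, nsmul_eq_mul]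
    · ring
    · intro a ha
      have := hpos a ha
      field_simp
  have e2 : ∑ a ∈ P, (∏ l, R lab s Q l a)⁻¹ / Z * (∏ l, R lab s Q l a) ^ q =
      (∑ a ∈ P, (∏ l, R lab s Q l a) ^ (q - 1)) / Z := by
    rw [sum_div]
    refine sum_congr rfl fun a ha => ?_
    have := hpos a ha
    rw [Real.rpow_sub_one this.ne']
    field_simp
  rw [e1, e2, Real.div_rpow (by positivity) hS0.le] at h1
  have hY0 : 0 ≤ ∑ a ∈ P, (∏ l, R lab s Q l a) ^ (q - 1) :=
    sum_nonneg fun a ha => Real.rpow_nonneg (hpos a ha).le _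
  have hSq : 0 < Z ^ q := Real.rpow_pos_of_pos hS0 _
  rw [div_le_div_iff₀ hSq hS0] at h1
  have h2 : Z ^ q ≤ Z := by
    calc Z ^ q ≤ Z ^ (1 : ℝ) := Real.rpow_le_rpow_of_exponent_ge hS0 hS1 hq
      _ = Z := Real.rpow_one _
  have h3 : (P.card : ℝ) ^ q * Z ≤ (∑ a ∈ P, (∏ l, R lab s Q l a) ^ (q - 1)) * Z :=
    h1.trans (mul_le_mul_of_nonneg_left h2 hY0)
  exact le_of_mul_le_mul_right h3 hS0

end Q67.KT
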