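import Pool.Agent.Q67.KT.Norm
set_option autoImplicit false
set_option linter.unusedSectionVars false

/-!
# Triangular families of tubes are organised in trees of slabs
-/

open MeasureTheory Set Metric
open scoped ENNReal NNReal Classical

namespace Q67.KT
open Pool.Agent.TH705.RR (E vb vb_pos Rod vol_rod)

variable {m : ℕ}

/-- The `j`-th slope of the direction `e` in the orthonormal basis `u`, with respect to its last
vector. -/
noncomputable def slope (u : OrthonormalBasis (Fin (m + 1)) ℝ (E (m + 1))) (e : E (m + 1))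
    (j : Fin m) : ℝ := inner ℝ e (u j.castSucc) / inner ℝ e (u (Fin.last m))

/-- The `j`-th coordinate, in the orthonormal basis `u`, of the point of height `w` of the line through
`a` with direction `e`. -/
noncomputable def posn (u : OrthonormalBasis (Fin (m + 1)) ℝ (E (m + 1))) (a e : E (m + 1)) (w : ℤ)
    (j : Fin m) : ℝ :=
  inner ℝ a (u j.castSucc) - (inner ℝ a (u (Fin.last m)) - w) * slope u e j

theorem dir_dist (u : OrthonormalBasis (Fin (m + 1)) ℝ (E (m + 1))) {e e' : E (m + 1)}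
    (he : ‖e‖ = 1) (he' : ‖e'‖ = 1) (hp : 0 < (inner ℝ e (u (Fin.last m)) : ℝ))
    (hp' : 0 < (inner ℝ e' (u (Fin.last m)) : ℝ)) :
    ‖e - e'‖ ^ 2 ≤ ∑ j, (slope u e j - slope u e' j) ^ 2 := by
  set p := (inner ℝ e (u (Fin.last m)) : ℝ) with hpd
  set p' := (inner ℝ e' (u (Fin.last m)) : ℝ) with hpd'
  set x : E (m + 1) := p⁻¹ • e with hx
  set x' : E (m + 1) := p'⁻¹ • e' with hx'
  have hn : ‖x - x'‖ ^ 2 = ∑ j, (slope u e j - slope u e' j) ^ 2 := by
    have h1 := OrthonormalBasis.sum_sq_norm_inner_right u (x - x')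
    rw [← h1, Fin.sum_univ_castSucc]
    have h2 : (inner ℝ (u (Fin.last m)) (x - x') : ℝ) = 0 := by
      rw [inner_sub_right, hx, hx', inner_smul_right, inner_smul_right,
        real_inner_comm e (u (Fin.last m)), real_inner_comm e' (u (Fin.last m)), ← hpd, ← hpd', inv_mul_cancel₀ hp.ne',
        inv_mul_cancel₀ hp'.ne', sub_self]
    rw [h2, norm_zero]
    have h3 : ∀ j : Fin m, ‖(inner ℝ (u j.castSucc) (x - x') : ℝ)‖ ^ 2 =
        (slope u e j - slope u e' j) ^ 2 := by
      intro j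
      rw [Real.norm_eq_abs, sq_abs]
      congr 1
      unfold slope
      rw [inner_sub_right, hx, hx', inner_smul_right, inner_smul_right,
        real_inner_comm e (u j.castSucc), real_inner_comm e' (u j.castSucc), ← hpd, ← hpd']
      ring
    rw [Finset.sum_congr rfl fun j _ => h3 j]
    ring
  rw [← hn, norm_sub_sq_real, norm_sub_sq_real, he, he', hx, hx', norm_smul, norm_smul, he, he',
    inner_smul_left, inner_smul_right]
  simp only [mul_one, Real.norm_eq_abs, conj_trivial]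
  rw [abs_of_pos (inv_pos.2 hp), abs_of_pos (inv_pos.2 hp')]
  have hu : ‖u (Fin.last m)‖ = 1 := u.norm_eq_one _
  have hle : p ≤ 1 := by
    have := real_inner_le_norm e (u (Fin.last m))
    rwa [he, hu, one_mul] at this
  have hle' : p' ≤ 1 := by
    have := real_inner_le_norm e' (u (Fin.last m))
    rwa [he', hu, one_mul] at this
  have h1 : 1 ≤ p⁻¹ := (one_le_inv₀ hp).2 hle
  have h1' : 1 ≤ p'⁻¹ := (one_le_inv₀ hp').2 hle'
  have hi : (inner ℝ e e' : ℝ) ≤ 1 := by
    have := real_inner_le_norm e e'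
    rwa [he, he', one_mul] at this
  generalize p⁻¹ = r at *
  generalize p'⁻¹ = r' at *
  generalize (inner ℝ e e' : ℝ) = c at *
  have h2 : 0 ≤ (1 - c) * (r * r' - 1) := mul_nonneg (by linarith) (by nlinarith)
  nlinarith [sq_nonneg (r - r')]

section one

variable (u : OrthonormalBasis (Fin (m + 1)) ℝ (E (m + 1))) {ι : Type} [Fintype ι]
  (a e : ι → E (m + 1)) (ρ : ℝ)

/-- The labels. -/
noncomputable def lb (i : ι) (j : Fin m) : ℤ := ⌊slope u (e i) j / ρ⌋

/-- The slope of the node. -/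
noncomputable def vb' (j : Fin m) (i : ι) : ℝ := ((lb u e ρ i j : ℝ) + 1 / 2) * ρ

/-- The normal of the node. -/
noncomputable def nu (j : Fin m) (i : ι) : E (m + 1) :=
  (√(1 + vb' u e ρ j i ^ 2))⁻¹ • (u j.castSucc - vb' u e ρ j i • u (Fin.last m))

/-- The position of a representative. -/
noncomputable def pick (w : ι → ℤ) (j : Fin m) (F : Finset ι) : ℝ :=
  if h : F.Nonempty then posn u (a h.choose) (e h.choose) (w h.choose) j else 0

/-- The labels with the windows. -/
noncomputable def lw (B : ℤ) (w : ι → ℤ) (i : ι) (j : Fin m) : ℤ :=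
  if (j : ℕ) = 0 then lb u e ρ i j + B * w i else lb u e ρ i j

/-- The height of the slab of the node. -/
noncomputable def hh (B : ℤ) (w : ι → ℤ) (j : Fin m) (i : ι) : ℝ :=
  (√(1 + vb' u e ρ j i ^ 2))⁻¹ * (pick u a e w j (cls (lw u e ρ B w) (j + 1) i) - vb' u e ρ j i * w i)

variable {u a e ρ}

theorem slope_near (hρ : 0 < ρ) (i : ι) (j : Fin m) :
    (lb u e ρ i j : ℝ) * ρ ≤ slope u (e i) j ∧ slope u (e i) j ≤ ((lb u e ρ i j : ℝ) + 1) * ρ := by
  unfold lb
  have h1 := Int.floor_le (slope u (e i) j / ρ)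
  have h2 := (Int.lt_floor_add_one (slope u (e i) j / ρ)).le
  rw [le_div_iff₀ hρ] at h1
  rw [div_le_iff₀ hρ] at h2
  exact ⟨h1, h2⟩

theorem slope_close (hρ : 0 < ρ) {i i' : ι} {j : Fin m} (h : lb u e ρ i j = lb u e ρ i' j) :
    |slope u (e i) j - slope u (e i') j| ≤ ρ := by
  obtain ⟨h1, h2⟩ := slope_near (u := u) (e := e) hρ i j
  obtain ⟨h3, h4⟩ := slope_near (u := u) (e := e) hρ i' j
  rw [← h] at h3 h4
  rw [abs_le]
  constructor <;> nlinarith

theorem vb_close (hρ : 0 < ρ) (i : ι) (j : Fin m) :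
    |slope u (e i) j - vb' u e ρ j i| ≤ ρ / 2 := by
  obtain ⟨h1, h2⟩ := slope_near (u := u) (e := e) hρ i j
  unfold vb'
  rw [abs_le]
  constructor <;> nlinarith

theorem nu_norm (j : Fin m) (i : ι) : ‖nu u e ρ j i‖ = 1 := by
  unfold nu
  have hne : j.castSucc ≠ Fin.last m := (Fin.castSucc_lt_last j).ne
  have h1 : ‖u j.castSucc - vb' u e ρ j i • u (Fin.last m)‖ ^ 2 = 1 + vb' u e ρ j i ^ 2 := by
    rw [norm_sub_sq_real, norm_smul, inner_smul_right, u.norm_eq_one, u.norm_eq_one,
      u.inner_eq_zero hne, Real.norm_eq_abs, mul_one, sq_abs]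
    ring
  have h2 : ‖u j.castSucc - vb' u e ρ j i • u (Fin.last m)‖ = √(1 + vb' u e ρ j i ^ 2) := by
    rw [← h1, Real.sqrt_sq (norm_nonneg _)]
  have h3 : 0 < √(1 + vb' u e ρ j i ^ 2) := Real.sqrt_pos.2 (by positivity)
  rw [norm_smul, h2, norm_inv, Real.norm_eq_abs, abs_of_pos h3, inv_mul_cancel₀ h3.ne']

theorem inner_nu (y : E (m + 1)) (j : Fin m) (i : ι) :
    (inner ℝ y (nu u e ρ j i) : ℝ) = (√(1 + vb' u e ρ j i ^ 2))⁻¹ *
      (inner ℝ y (u j.castSucc) - vb' u e ρ j i * inner ℝ y (u (Fin.last m))) := by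
  unfold nu
  rw [inner_smul_right, inner_sub_right, inner_smul_right]

theorem lb_inj {δ : ℝ} (hδ : 0 < δ) (hρ : 0 < ρ) (hρδ : ρ ≤ δ / (m + 1)) (he : ∀ i, ‖e i‖ = 1)
    (hup : ∀ i, 0 < (inner ℝ (e i) (u (Fin.last m)) : ℝ))
    (hsep : ∀ i i', i ≠ i' → δ ≤ ‖e i - e i'‖) : Function.Injective (lb u e ρ) := by
  intro i i' h
  by_contra hne
  have h1 := hsep i i' hne
  have h2 := dir_dist u (he i) (he i') (hup i) (hup i')
  have h3 : ∑ j, (slope u (e i) j - slope u (e i') j) ^ 2 ≤ ∑ _j : Fin m, ρ ^ 2 := by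
    apply Finset.sum_le_sum
    intro j _
    have := slope_close (u := u) (e := e) hρ (congrFun h j)
    rw [← sq_abs]
    exact pow_le_pow_left₀ (abs_nonneg _) this 2
  rw [Finset.sum_const, Finset.card_univ, Fintype.card_fin, nsmul_eq_mul] at h3
  have h4 : δ ^ 2 ≤ ‖e i - e i'‖ ^ 2 := pow_le_pow_left₀ hδ.le h1 2
  have hm1 : (0 : ℝ) < (m : ℝ) + 1 := by positivity
  have h5 : ρ * (m + 1) ≤ δ := by rwa [le_div_iff₀ hm1] at hρδ
  have h6 : (ρ * (m + 1)) ^ 2 ≤ δ ^ 2 := pow_le_pow_left₀ (by positivity) h5 2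
  have h7 : (m : ℝ) * ρ ^ 2 < (ρ * (m + 1)) ^ 2 := by
    have hm0 : (0 : ℝ) ≤ m := by positivity
    have : 0 < ρ ^ 2 := by positivity
    nlinarith
  linarith

end one

theorem lw_agr {m : ℕ} {u : OrthonormalBasis (Fin (m + 1)) ℝ (E (m + 1))} {ι : Type} [Fintype ι]
    {e : ι → E (m + 1)} {ρ : ℝ} {B : ℤ} {w : ι → ℤ}
    (hB : ∀ i i' j, |lb u e ρ i j - lb u e ρ i' j| < B) {t : ℕ} (ht : 0 < t) (hm : 1 ≤ m) {i i' : ι}
    (h : agr (lw u e ρ B w) t i i') : w i = w i' ∧ agr (lb u e ρ) t i i' := by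
  have h0 := h ⟨0, hm⟩ ht
  unfold lw at h0
  simp only [if_true] at h0
  have hw : w i = w i' := by
    by_contra hne
    have h1 : 1 ≤ |w i' - w i| := Int.one_le_abs (sub_ne_zero.2 (Ne.symm hne))
    have h2 : lb u e ρ i ⟨0, hm⟩ - lb u e ρ i' ⟨0, hm⟩ = B * (w i' - w i) := by
      rw [mul_sub]; omega
    have h3 := hB i i' ⟨0, hm⟩
    rw [h2, abs_mul] at h3
    have h4 : B ≤ |B| := le_abs_self B
    have h5 : 0 ≤ |B| := abs_nonneg B
    nlinarith
  refine ⟨hw, fun l hl => ?_⟩
  have h1 := h l hl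
  unfold lw at h1
  by_cases hl0 : (l : ℕ) = 0
  · rw [if_pos hl0, if_pos hl0, hw] at h1
    omega
  · rw [if_neg hl0, if_neg hl0] at h1
    exact h1

set_option maxHeartbeats 2000000 in
/-- The inequality for one family whose positions are determined by the cells of the slopes, in windows
of heights that are far from each other. -/
theorem tri_cell {m : ℕ} (hm : 1 ≤ m) {q : ℝ} (hq : 1 + 1 / (m : ℝ) < q) {δ K c τ : ℝ} (hδ : 0 < δ)
    (hδ1 : δ < 1) (hK : 0 ≤ K) (hc : 0 < c) (hc1 : c ≤ 1) (hτ0 : 0 < τ)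
    (hτm : τ ≤ 1 / (m + 1))
    {ι : Type} [Fintype ι] (a e : ι → E (m + 1)) (he : ∀ i, ‖e i‖ = 1)
    (hsep : ∀ i i', i ≠ i' → δ ≤ ‖e i - e i'‖)
    (u : OrthonormalBasis (Fin (m + 1)) ℝ (E (m + 1)))
    (hup : ∀ i, c ≤ (inner ℝ (e i) (u (Fin.last m)) : ℝ)) (w : ι → ℤ)
    (hw : ∀ i, |(inner ℝ (a i) (u (Fin.last m)) : ℝ) - w i| ≤ 1)
    (hww : ∀ i i', w i ≠ w i' → 5 ≤ |w i - w i'|)
    (htri : ∀ (j : Fin m) i i', w i = w i' → agr (lb u e (τ * δ)) (j + 1) i i' →
      |posn u (a i) (e i) (w i) j - posn u (a i') (e i') (w i') j| ≤ K * δ) :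
    eLpNorm (msum δ a e) (ENNReal.ofReal q) volume ≤
      ENNReal.ofReal ((Cc (m * (q - 1)) * (2 ^ (m + 1) * vb (m + 1) *
        (10 * ((K + 3 + 1) / (c ^ 2 * τ / 6))))) ^ (1 / q) *
        δ ^ ((m : ℝ) / q) * (Fintype.card ι : ℝ) ^ (1 - 1 / (q * (m : ℝ)))) := by
  have hm1 : (0 : ℝ) < (m : ℝ) + 1 := by positivity
  have hm0 : (0 : ℝ) < m := by exact_mod_cast hm
  have hτ1 : τ ≤ 1 := by
    refine hτm.trans ?_
    rw [div_le_one hm1]
    have : (0 : ℝ) ≤ m := by positivity
    linarith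
  set ρ : ℝ := τ * δ with hρd
  have hρ : 0 < ρ := by positivity
  have hρδ : ρ ≤ δ / (m + 1) := by
    calc ρ ≤ 1 / (m + 1) * δ := by rw [hρd]; gcongr
      _ = _ := by ring
  have hρ1 : ρ ≤ δ := by nlinarith
  have hpos : ∀ i, 0 < (inner ℝ (e i) (u (Fin.last m)) : ℝ) := fun i => lt_of_lt_of_le hc (hup i)
  have hle1 : ∀ i j, |(inner ℝ (e i) (u j) : ℝ)| ≤ 1 := by
    intro i j
    have := abs_real_inner_le_norm (e i) (u j)
    rwa [he, u.norm_eq_one, one_mul] at this
  have hsl : ∀ i (j : Fin m), (inner ℝ (e i) (u j.castSucc) : ℝ) =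
      inner ℝ (e i) (u (Fin.last m)) * slope u (e i) j := by
    intro i j
    unfold slope
    rw [mul_div_cancel₀ _ (hpos i).ne']
  have hκ : 0 < c ^ 2 * τ / 6 := by positivity
  have hκ1 : c ^ 2 * τ / 6 ≤ 1 := by nlinarith [sq_nonneg c]
  have hlbinj := lb_inj (u := u) (e := e) hδ hρ hρδ he hpos hsep
  -- the bound of the labels
  obtain ⟨B, hB⟩ : ∃ B : ℤ, ∀ i i' j, |lb u e ρ i j - lb u e ρ i' j| < B := by
    refine ⟨∑ i, ∑ i', ∑ j, |lb u e ρ i j - lb u e ρ i' j| + 1, fun i i' j => ?_⟩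
    have h1 : |lb u e ρ i j - lb u e ρ i' j| ≤ ∑ j, |lb u e ρ i j - lb u e ρ i' j| :=
      Finset.single_le_sum (f := fun j => |lb u e ρ i j - lb u e ρ i' j|)
        (fun _ _ => abs_nonneg _) (Finset.mem_univ j)
    have h2 : ∑ j, |lb u e ρ i j - lb u e ρ i' j| ≤ ∑ i', ∑ j, |lb u e ρ i j - lb u e ρ i' j| :=
      Finset.single_le_sum (f := fun i' => ∑ j, |lb u e ρ i j - lb u e ρ i' j|)
        (fun _ _ => Finset.sum_nonneg fun _ _ => abs_nonneg _) (Finset.mem_univ i')
    have h3 : ∑ i', ∑ j, |lb u e ρ i j - lb u e ρ i' j| ≤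
        ∑ i, ∑ i', ∑ j, |lb u e ρ i j - lb u e ρ i' j| :=
      Finset.single_le_sum (f := fun i => ∑ i', ∑ j, |lb u e ρ i j - lb u e ρ i' j|)
        (fun _ _ => Finset.sum_nonneg fun _ _ => Finset.sum_nonneg fun _ _ => abs_nonneg _)
        (Finset.mem_univ i)
    omega
  set lab := lw u e ρ B w with hlab
  have hinj : Function.Injective lab := by
    intro i i' h
    apply hlbinj
    funext j
    exact (lw_agr hB (t := m) (by omega) hm (fun l _ => congrFun h l)).2 j j.2
  have hvb := vb_pos (m + 1)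
  have h1m : 0 < 1 / (m : ℝ) := by positivity
  have hγ : 1 < m * (q - 1) := by
    have h2 : 1 / (m : ℝ) < q - 1 := by linarith
    rwa [div_lt_iff₀ hm0, mul_comm] at h2
  have hCc := Cc_pos hγ
  -- the sets of the nodes
  set W : ι → Set (E (m + 1)) := fun i =>
    {y | |(inner ℝ y (u (Fin.last m)) : ℝ) - w i| ≤ 5 / 2} with hWdef
  have hWc : ∀ i, IsClosed (W i) := by
    intro i
    have h1 : Continuous fun y : E (m + 1) => |(inner ℝ y (u (Fin.last m)) : ℝ) - w i| := by fun_prop
    exact isClosed_le h1 continuous_const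
  have hTW' : ∀ i, ∀ y ∈ tube δ (a i) (e i), |(inner ℝ y (u (Fin.last m)) : ℝ) - w i| < 5 / 2 := by
    rintro i y ⟨hy1, hy2⟩
    set t := (inner ℝ (y - a i) (e i) : ℝ) with ht
    set z := (y - a i) - t • e i with hz
    have hyw : y = a i + t • e i + z := by rw [hz]; abel
    have hin : (inner ℝ y (u (Fin.last m)) : ℝ) - w i =
        (inner ℝ (a i) (u (Fin.last m)) - w i) + t * inner ℝ (e i) (u (Fin.last m)) +
          inner ℝ z (u (Fin.last m)) := by
      rw [hyw, inner_add_left, inner_add_left, inner_smul_left]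
      simp
      ring
    have hzn : |(inner ℝ z (u (Fin.last m)) : ℝ)| ≤ δ := by
      have := abs_real_inner_le_norm z (u (Fin.last m))
      rw [u.norm_eq_one, mul_one] at this
      exact this.trans hy2
    have h2 : |t * (inner ℝ (e i) (u (Fin.last m)) : ℝ)| ≤ 1 / 2 := by
      rw [abs_mul]
      have := hle1 i (Fin.last m)
      nlinarith [abs_nonneg t, abs_nonneg (inner ℝ (e i) (u (Fin.last m)) : ℝ)]
    rw [hin]
    refine lt_of_le_of_lt (abs_add_three _ _ _) ?_
    linarith [hw i]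
  have hTW : ∀ i, tube δ (a i) (e i) ⊆ W i := fun i y hy => (hTW' i y hy).le
  have hWd : ∀ i i', w i ≠ w i' → tube δ (a i) (e i) ∩ W i' = ∅ := by
    intro i i' hne
    apply subset_empty_iff.1
    rintro y ⟨hy1, hy2⟩
    have h1 := hTW' i y hy1
    have h2 : |(inner ℝ y (u (Fin.last m)) : ℝ) - w i'| ≤ 5 / 2 := hy2
    have h3 : (5 : ℝ) ≤ |(w i : ℝ) - w i'| := by exact_mod_cast hww i i' hne
    have h4 : |(w i : ℝ) - w i'| ≤ |(inner ℝ y (u (Fin.last m)) : ℝ) - w i'| +
        |(inner ℝ y (u (Fin.last m)) : ℝ) - w i| := by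
      have : (w i : ℝ) - w i' = (inner ℝ y (u (Fin.last m)) - w i') - (inner ℝ y (u (Fin.last m)) - w i) := by
        ring
      rw [this]
      exact abs_sub _ _
    linarith
  refine elp_one hm hδ (by linarith) (by positivity) a e ?_
  have key := core (lab := lab) hm hγ volume hinj (fun i => tube δ (a i) (e i))
    (fun j i => slab ((K + 3) * δ) (nu u e ρ j i) (hh u a e ρ B w j i) ∩ W i)
    (fun i => (tube_closed _ _ _).measurableSet)
    (fun j i => ((slab_closed _ _ _).inter (hWc i)).measurableSet) ?_ ?_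
    (M := 2 ^ (m + 1) * vb (m + 1) * (10 * ((K + 3 + 1) / (c ^ 2 * τ / 6))) * δ ^ m) (by positivity) ?_
  · have e1 : 1 + m * (q - 1) / (m : ℝ) = q := by field_simp; ring
    have e2 : 1 + (m * (q - 1) - 1) / (m : ℝ) = q - 1 / m := by field_simp; ring
    rw [e1, e2] at key
    refine key.trans (le_of_eq ?_)
    congr 1
    ring
  · -- the tube lies in the slab
    intro j i y hy
    refine ⟨?_, hTW i hy⟩
    obtain ⟨hy1, hy2⟩ := hy
    set t := (inner ℝ (y - a i) (e i) : ℝ) with ht
    set z := (y - a i) - t • e i with hz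
    set r := √(1 + vb' u e ρ j i ^ 2) with hr
    have hr1 : 1 ≤ r := by
      rw [hr, Real.one_le_sqrt]
      nlinarith [sq_nonneg (vb' u e ρ j i)]
    have hr0 : 0 < r := by linarith
    -- the representative
    have hne : (cls lab (j + 1) i).Nonempty := ⟨i, mem_cls.2 (agr_refl _ _)⟩
    set i₀ := hne.choose with hi₀
    have hi0 : agr lab (j + 1) i i₀ := mem_cls.1 hne.choose_spec
    obtain ⟨hw0, hl0⟩ := lw_agr hB (Nat.succ_pos _) hm hi0
    have hpick : pick u a e w j (cls lab (j + 1) i) = posn u (a i₀) (e i₀) (w i₀) j := by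
      unfold pick
      rw [dif_pos hne]
    have hclose : |posn u (a i) (e i) (w i) j - posn u (a i₀) (e i₀) (w i₀) j| ≤ K * δ :=
      htri j i i₀ hw0 hl0
    have hyw : y = a i + t • e i + z := by rw [hz]; abel
    have hin : ∀ x : E (m + 1), (inner ℝ y x : ℝ) = inner ℝ (a i) x + t * inner ℝ (e i) x + inner ℝ z x := by
      intro x
      rw [hyw, inner_add_left, inner_add_left, inner_smul_left]
      simp
    have hwn : |(inner ℝ z (nu u e ρ j i) : ℝ)| ≤ δ := by
      have := abs_real_inner_le_norm z (nu u e ρ j i)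
      rw [nu_norm, mul_one] at this
      exact this.trans hy2
    have hval : (inner ℝ y (nu u e ρ j i) : ℝ) - hh u a e ρ B w j i =
        r⁻¹ * ((posn u (a i) (e i) (w i) j - posn u (a i₀) (e i₀) (w i₀) j) +
          ((inner ℝ (a i) (u (Fin.last m)) - w i) + t * inner ℝ (e i) (u (Fin.last m))) *
            (slope u (e i) j - vb' u e ρ j i)) + inner ℝ z (nu u e ρ j i) := by
      rw [hin, inner_nu (a i), inner_nu (e i), hsl i j]
      unfold hh
      rw [← hlab, hpick, ← hr]
      unfold posn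
      ring
    show |(inner ℝ y (nu u e ρ j i) : ℝ) - hh u a e ρ B w j i| ≤ (K + 3) * δ
    rw [hval]
    have h1 : |((inner ℝ (a i) (u (Fin.last m)) - w i) + t * inner ℝ (e i) (u (Fin.last m)) : ℝ)| ≤
        1 + 1 := by
      refine (abs_add_le _ _).trans (add_le_add (hw i) ?_)
      rw [abs_mul]
      have := hle1 i (Fin.last m)
      nlinarith [abs_nonneg t, abs_nonneg (inner ℝ (e i) (u (Fin.last m)) : ℝ)]
    have h2 := vb_close (u := u) (e := e) hρ i j
    have h3 : |(posn u (a i) (e i) (w i) j - posn u (a i₀) (e i₀) (w i₀) j) +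
          ((inner ℝ (a i) (u (Fin.last m)) - w i) + t * inner ℝ (e i) (u (Fin.last m))) *
            (slope u (e i) j - vb' u e ρ j i)| ≤ (K + 2) * δ := by
      refine (abs_add_le _ _).trans ?_
      rw [abs_mul]
      have h4 : |((inner ℝ (a i) (u (Fin.last m)) - w i) + t * inner ℝ (e i) (u (Fin.last m)) : ℝ)| *
          |slope u (e i) j - vb' u e ρ j i| ≤ (1 + 1) * (ρ / 2) :=
        mul_le_mul h1 h2 (abs_nonneg _) (by norm_num)
      nlinarith
    refine (abs_add_le _ _).trans ?_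
    rw [abs_mul, abs_of_pos (inv_pos.2 hr0)]
    have h5 : r⁻¹ ≤ 1 := inv_le_one_of_one_le₀ hr1
    have h6 : r⁻¹ * |(posn u (a i) (e i) (w i) j - posn u (a i₀) (e i₀) (w i₀) j) +
          ((inner ℝ (a i) (u (Fin.last m)) - w i) + t * inner ℝ (e i) (u (Fin.last m))) *
            (slope u (e i) j - vb' u e ρ j i)| ≤ 1 * ((K + 2) * δ) :=
      mul_le_mul h5 h3 (abs_nonneg _) zero_le_one
    linarith
  · -- the set depends on the node only
    intro j i i' hii
    obtain ⟨hwe, hle⟩ := lw_agr hB (Nat.succ_pos _) hm hii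
    have h1 : lb u e ρ i j = lb u e ρ i' j := (agr_succ.1 hle).2
    have h2 : vb' u e ρ j i = vb' u e ρ j i' := by unfold vb'; rw [h1]
    have h3 : nu u e ρ j i = nu u e ρ j i' := by unfold nu; rw [h2]
    have h4 : hh u a e ρ B w j i = hh u a e ρ B w j i' := by
      unfold hh; rw [h2, ← hlab, cls_congr hii, hwe]
    have h5 : W i = W i' := by simp only [W]; rw [hwe]
    rw [h3, h4, h5]
  · -- the measures of the intersections
    intro j i i' hii
    by_cases hwe : w i = w i'
    · have hdd : dd lab j i i' = dd (lb u e ρ) j i i' := by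
        unfold dd
        rw [hlab]
        unfold lw
        split_ifs
        · rw [hwe]; congr 1; ring
        · rfl
      refine (measure_mono (inter_subset_inter_right _ inter_subset_left)).trans ?_
      refine pair_bound (by omega) (he i) (nu_norm j i') hδ hδ1 (K := K + 3) (by linarith) hκ hκ1 ?_
      rw [hdd]
      set D := dd (lb u e ρ) j i i' with hD
      rcases Nat.eq_zero_or_pos D with h0 | hD1
      · rw [h0]
        simp
      have hDr : (1 : ℝ) ≤ D := by exact_mod_cast hD1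
      have hDabs : (D : ℝ) = |(lb u e ρ i' j : ℝ) - lb u e ρ i j| := by
        rw [hD]
        unfold dd
        rw [Nat.cast_natAbs]
        push_cast
        rfl
      set r := √(1 + vb' u e ρ j i' ^ 2) with hr
      rw [inner_nu, hsl i j, ← hr]
      have hr0 : 0 < r := Real.sqrt_pos.2 (by positivity)
      have hsl' : |slope u (e i') j| ≤ 1 / c := by
        unfold slope
        rw [abs_div, abs_of_pos (hpos i')]
        exact div_le_div₀ zero_le_one (hle1 i' _) hc (hup i')
      have hc' : 1 ≤ 1 / c := by rw [le_div_iff₀ hc]; linarith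
      have hr3 : r ≤ 3 / c := by
        have h2 := vb_close (u := u) (e := e) hρ i' j
        have h3 : |vb' u e ρ j i'| ≤ 1 / c + 1 := by
          have h4 : vb' u e ρ j i' = slope u (e i') j - (slope u (e i') j - vb' u e ρ j i') := by ring
          rw [h4]
          refine (abs_sub _ _).trans ?_
          linarith
        have h5 : r ≤ 1 + |vb' u e ρ j i'| := by
          rw [hr]
          apply Real.sqrt_le_iff.2
          constructor
          · positivity
          · have := abs_nonneg (vb' u e ρ j i')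
            nlinarith [sq_abs (vb' u e ρ j i')]
        calc r ≤ 1 + (1 / c + 1) := by linarith
          _ ≤ 3 * (1 / c) := by linarith
          _ = 3 / c := by ring
      have hfac : (inner ℝ (e i) (u (Fin.last m)) * slope u (e i) j -
          vb' u e ρ j i' * inner ℝ (e i) (u (Fin.last m)) : ℝ) =
          inner ℝ (e i) (u (Fin.last m)) * (slope u (e i) j - vb' u e ρ j i') := by ring
      rw [hfac, abs_mul, abs_mul, abs_of_pos (inv_pos.2 hr0), abs_of_pos (hpos i)]
      have hgap : D * ρ / 2 ≤ |slope u (e i) j - vb' u e ρ j i'| := by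
        have h2 := vb_close (u := u) (e := e) hρ i j
        have h3 : |vb' u e ρ j i - vb' u e ρ j i'| = D * ρ := by
          unfold vb'
          rw [hDabs, ← abs_of_pos hρ, ← abs_mul, abs_of_pos hρ, ← abs_neg]
          congr 1
          ring
        have h4 : |vb' u e ρ j i - vb' u e ρ j i'| ≤
            |slope u (e i) j - vb' u e ρ j i'| + |slope u (e i) j - vb' u e ρ j i| := by
          have : vb' u e ρ j i - vb' u e ρ j i' =
              (slope u (e i) j - vb' u e ρ j i') - (slope u (e i) j - vb' u e ρ j i) := by ring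
          rw [this]
          exact abs_sub _ _
        rw [h3] at h4
        nlinarith
      have hri : c / 3 ≤ r⁻¹ := by
        rw [le_inv_comm₀ (by positivity) hr0, inv_div]
        exact hr3
      calc c ^ 2 * τ / 6 * δ * D = c / 3 * (c * (D * ρ / 2)) := by rw [hρd]; ring
        _ ≤ r⁻¹ * (inner ℝ (e i) (u (Fin.last m)) * |slope u (e i) j - vb' u e ρ j i'|) := by
            apply mul_le_mul hri _ (by positivity) (by positivity)
            exact mul_le_mul (hup i) hgap (by positivity) (hpos i).le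
    · have h1 : tube δ (a i) (e i) ∩ (slab ((K + 3) * δ) (nu u e ρ j i') (hh u a e ρ B w j i') ∩ W i') = ∅ := by
        apply subset_empty_iff.1
        rintro y ⟨hy1, hy2⟩
        have : y ∈ tube δ (a i) (e i) ∩ W i' := ⟨hy1, hy2.2⟩
        rwa [hWd i i' hwe] at this
      rw [h1, measure_empty]
      exact zero_le

end Q67.KT
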